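import Pool.Agent.W708.OC.Cls
import Pool.Agent.W708.OC.T2
import Pool.Agent.W708.OC.C2_0
import Pool.Agent.W708.OC.C2_1
import Pool.Agent.W708.OC.C2_2
/-!
Group level of stage 2.
-/
set_option autoImplicit false
set_option maxRecDepth 100000

namespace Pool.Agent.W708.OC

namespace S2G

noncomputable def Rl : List Nat := [(nat_lit 0x15), (nat_lit 0x13), (nat_lit 0x293), (nat_lit 0x274), (nat_lit 0x14), (nat_lit 0x59a5), (nat_lit 0xb55a5), (nat_lit 0xb4da5), (nat_lit 0x16a4da5), (nat_lit 0x169d1a5), (nat_lit 0xb51a5)]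
theorem hW : ∀ g ∈ Rl, IsW actP g := fun g _ => isW_word g
theorem hR : allL (symOK actP 172) Rl = true := by decide +kernel
noncomputable def toks : List Nat := [(nat_lit 0x1109e4848880b98850e64888d7045885092c0009a4eec0088401509e4848880b98850da4888e70f18e30f28e30f88e30f98e30fa8e31098e310a8e30f6c0088c8792c)]

noncomputable def L : List Nat := S2.C2_0.l0 ++ (S2.C2_1.l0 ++ (S2.C2_2.l0))
theorem hc : eqL (collect 720 S2.F G0 actP (hdG (parse toks)) (Nat.land FULL (Nat.land (S2.F (Nat.shiftLeft 1 0)) (S2.F (Nat.shiftLeft 1 172)))) Rl []) L = true := by decide +kernel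
theorem hL {V : (Nat → Prop) → Prop} (hS : Sound S2.F G0 S2.H V) : ∀ a ∈ L, Bad V a := by
  intro a ha
  unfold L at ha
  simp only [List.mem_append] at ha
  rcases ha with h | h | h
  · exact S2.C2_0.ab hS a h
  · exact S2.C2_1.ab hS a h
  · exact S2.C2_2.ab hS a h

theorem stage {V0 : (Nat → Prop) → Prop} (hV : PullV V0) {pats : List Nat} (hpats : ∀ p ∈ pats, p < 720)
    (hS : Sound S2.F G0 S2.H (VS V0 pats)) : ∀ P, VS V0 pats P → ¬ (P 0 ∧ P 172) :=
  stage_sound hV hpats hS (by decide) hW hR (hL hS) hc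

end S2G

end Pool.Agent.W708.OC
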