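import Pool.Agent.W708.OC.Cls
import Pool.Agent.W708.OC.T6
import Pool.Agent.W708.OC.C6_0
/-!
Group level of stage 6.
-/
set_option autoImplicit false
set_option maxRecDepth 100000

namespace Pool.Agent.W708.OC

namespace S6G

noncomputable def Rl : List Nat := [(nat_lit 0x15), (nat_lit 0x13), (nat_lit 0x293), (nat_lit 0x274), (nat_lit 0x14), (nat_lit 0xf), (nat_lit 0x2af), (nat_lit 0x26f), (nat_lit 0x526f), (nat_lit 0x4e8f), (nat_lit 0x28f), (nat_lit 0x1), (nat_lit 0x2a1), (nat_lit 0x261), (nat_lit 0x5261), (nat_lit 0x4e81), (nat_lit 0x281), (nat_lit 0x1e1), (nat_lit 0x55e1), (nat_lit 0x4de1), (nat_lit 0xa4de1), (nat_lit 0x9d1e1), (nat_lit 0x51e1), (nat_lit 0xb2924), (nat_lit 0x16aa924), (nat_lit 0x169a924), (nat_lit 0x2d49a924), (nat_lit 0x2d3a2924), (nat_lit 0x16a2924), (nat_lit 0x160a924), (nat_lit 0x2d50a924), (nat_lit 0x2d30a924), (nat_lit 0x5a930a924), (nat_lit 0x5a740a924), (nat_lit 0x2d40a924), (nat_lit 0x160a905), (nat_lit 0x2d50a905),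 (nat_lit 0x2d30a905), (nat_lit 0x5a930a905), (nat_lit 0x5a740a905), (nat_lit 0x2d40a905), (nat_lit 0xb2905), (nat_lit 0x16aa905), (nat_lit 0x169a905), (nat_lit 0x2d49a905), (nat_lit 0x2d3a2905), (nat_lit 0x16a2905)]
theorem hW : ∀ g ∈ Rl, IsW actP g := fun g _ => isW_word g
theorem hR : allL (fun g => Nat.beq (actP g 0) 0) Rl = true := by decide +kernel
noncomputable def toks : List Nat := [(nat_lit 0x1101a1e387b1e787b1eb87b027035480c00037c008eb02b092488c00093c008ee02f124494c00127c008e680302214b87b14f87b1e387b1e787b1eb87b2a787b2ab87b0271e8c001e9c008ca02b098c0009a4eec008d780387a8793d)]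

noncomputable def L : List Nat := S6.C6_0.l0
theorem hc : eqL (collect 720 S6.F G0 actP (hdG (parse toks)) (Nat.land FULL (S6.F (Nat.shiftLeft 1 0))) Rl []) L = true := by decide +kernel
theorem hL {V : (Nat → Prop) → Prop} (hS : Sound S6.F G0 S6.H V) : ∀ a ∈ L, Bad V a := by
  intro a ha
  unfold L at ha
  exact S6.C6_0.ab hS a ha

theorem stage {V0 : (Nat → Prop) → Prop} (hV : PullV V0) {pats : List Nat} (hpats : ∀ p ∈ pats, p < 720)
    (hS : Sound S6.F G0 S6.H (VS V0 pats)) : ∀ P, VS V0 pats P → ¬ P 0 :=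
  last_sound hV hpats hS hW hR (hL hS) hc

end S6G

end Pool.Agent.W708.OC
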