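import Pool.Agent.W708.OC.Chk
/-!
Decoding of the group level trees, and the check of complete selections against the classes.
-/
set_option autoImplicit false
set_option linter.unusedSimpArgs false
set_option maxRecDepth 100000

namespace Pool.Agent.W708.OC

noncomputable def hdG (st : List GT) : GT := List.rec (motive := fun _ => GT) .cube (fun a _ _ => a) st
noncomputable def tlG (st : List GT) : List GT := List.rec (motive := fun _ => List GT) [] (fun _ t _ => t) st

/-- one token (read from the right): below 1024 branching, below 2048 forced item, below 3072 empty item -/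
noncomputable def pstep (tok : Nat) (st : List GT) : List GT :=
  Bool.rec (motive := fun _ => List GT)
    (Bool.rec (motive := fun _ => List GT)
      (Bool.rec (motive := fun _ => List GT) (.cube :: st) (.dead (Nat.sub tok 2048) :: st) (Nat.ble tok 3071))
      (.frc (Nat.sub tok 1024) (hdG st) :: tlG st) (Nat.ble tok 2047))
    (.exc tok (hdG st) (hdG (tlG st)) :: tlG (tlG st)) (Nat.ble tok 1023)

/-- chunk: low 8 bits are the number of tokens, then the tokens (12 bits each), last one first -/
noncomputable def pchunk (c : Nat) (st : List GT) : List GT :=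
  Nat.rec (motive := fun _ => List GT) st
    (fun i ih => pstep (Nat.land (Nat.shiftRight c (Nat.add 8 (Nat.mul 12 i))) 4095) ih) (Nat.land c 255)

noncomputable def parse (cs : List Nat) : List GT :=
  List.rec (motive := fun _ => List GT) [] (fun c _ ih => pchunk c ih) cs

noncomputable def eqL (l : List Nat) : List Nat → Bool :=
  List.rec (motive := fun _ => List Nat → Bool)
    (fun l' => List.rec (motive := fun _ => Bool) true (fun _ _ _ => false) l')
    (fun a _ ih l' => List.rec (motive := fun _ => Bool) false (fun b t _ => andB (Nat.beq a b) (ih t)) l') l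

theorem eqL_sound : ∀ {l l' : List Nat}, eqL l l' = true → l = l' := by
  intro l
  induction l with
  | nil =>
    intro l' h
    cases l' with
    | nil => rfl
    | cons b t => exact Bool.noConfusion h
  | cons a l ih =>
    intro l' h
    cases l' with
    | nil => exact Bool.noConfusion h
    | cons b t =>
      obtain ⟨h1, h2⟩ := andB_iff (show andB (Nat.beq a b) (eqL l t) = true from h)
      rw [Nat.eq_of_beq_eq_true h1, ih h2]

/-- a symmetry fixing `0` and `p`, or exchanging them -/
noncomputable def symOK (act : Nat → Nat → Nat) (p g : Nat) : Bool :=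
  Bool.rec (motive := fun _ => Bool) (andB (Nat.beq (act g 0) p) (Nat.beq (act g p) 0))
    (Nat.beq (act g p) p) (Nat.beq (act g 0) 0)

theorem symOK_spec {act : Nat → Nat → Nat} {p g : Nat} (h : symOK act p g = true) :
    (act g 0 = 0 ∧ act g p = p) ∨ (act g 0 = p ∧ act g p = 0) := by
  unfold symOK at h
  cases hz : Nat.beq (act g 0) 0 with
  | true => rw [hz] at h; exact Or.inl ⟨Nat.eq_of_beq_eq_true hz, Nat.eq_of_beq_eq_true h⟩
  | false =>
    rw [hz] at h
    obtain ⟨h1, h2⟩ := andB_iff h
    exact Or.inr ⟨Nat.eq_of_beq_eq_true h1, Nat.eq_of_beq_eq_true h2⟩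

/-- `act g` is the action of some word -/
def IsW (act : Nat → Nat → Nat) (g : Nat) : Prop := ∃ w, ∀ x, x < 720 → act g x = actP w x

/-- action given by a table -/
noncomputable def actT (g x : Nat) : Nat := Nat.land (Nat.shiftRight g (Nat.mul 10 x)) 1023

theorem isW_tab {g w : Nat} (h : allB (fun x => Nat.beq (actT g x) (actP w x)) 720 = true) : IsW actT g :=
  ⟨w, fun x hx => Nat.eq_of_beq_eq_true (allB_iff h x hx)⟩

theorem isW_word (g : Nat) : IsW actP g := ⟨g, fun _ _ => rfl⟩

theorem closed_act {V0 : (Nat → Prop) → Prop} (hV : PullV V0) {pats : List Nat} (hpats : ∀ p ∈ pats, p < 720)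
    {act : Nat → Nat → Nat} {g : Nat} (hg : IsW act g) (P : Nat → Prop) (hP : VS V0 pats P) :
    ∃ P', VS V0 pats P' ∧ ∀ x, x < 720 → (P' x ↔ P (act g x)) := by
  obtain ⟨w, hw⟩ := hg
  obtain ⟨P', hP', hx⟩ := VS_closed hV pats hpats w P hP
  exact ⟨P', hP', fun x hx' => by rw [hw x hx']; exact hx x hx'⟩

/-- Stage theorem: pattern `(0, p)`. -/
theorem stage_sound {V0 : (Nat → Prop) → Prop} (hV : PullV V0) {pats : List Nat} (hpats : ∀ p ∈ pats, p < 720)
    {F : Nat → Nat} {H : Nat → Nat → Bool} (hS : Sound F G0 H (VS V0 pats)) {p : Nat} (hp : p < 720)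
    {act : Nat → Nat → Nat} {Rl : List Nat} (hW : ∀ g ∈ Rl, IsW act g) (hRl : allL (symOK act p) Rl = true) {t : GT}
    {L : List Nat} (hL : ∀ a ∈ L, Bad (VS V0 pats) a)
    (hc : eqL (collect 720 F G0 act t (Nat.land FULL (Nat.land (F (Nat.shiftLeft 1 0)) (F (Nat.shiftLeft 1 p)))) Rl []) L = true) :
    ∀ P, VS V0 pats P → ¬ (P 0 ∧ P p) := by
  have h := collect_sound (N := 720) (act := act) hS t
    (Nat.land FULL (Nat.land (F (Nat.shiftLeft 1 0)) (F (Nat.shiftLeft 1 p)))) Rl []
    (fun P => VS V0 pats P ∧ P 0 ∧ P p) (fun P hP => hP.1)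
    (fun g hg x hx => by
      obtain ⟨w, hw⟩ := hW g hg
      rw [hw x hx]; exact actP_lt hV w hx)
    (by
      intro g hg P hP
      obtain ⟨P', hP', hx⟩ := closed_act hV hpats (hW g hg) P hP.1
      refine ⟨P', ⟨hP', ?_⟩, hx⟩
      rcases symOK_spec (allL_iff hRl g hg) with ⟨h1, h2⟩ | ⟨h1, h2⟩
      · exact ⟨(hx 0 (by decide)).2 (by rw [h1]; exact hP.2.1), (hx p hp).2 (by rw [h2]; exact hP.2.2)⟩
      · exact ⟨(hx 0 (by decide)).2 (by rw [h1]; exact hP.2.2), (hx p hp).2 (by rw [h2]; exact hP.2.1)⟩)
    (by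
      intro P hP o ho
      have ho' := hV.lt P hP.1.1 o ho
      show (FULL &&& (F (Nat.shiftLeft 1 0) &&& F (Nat.shiftLeft 1 p))).testBit o = true
      rw [Nat.testBit_and, Nat.testBit_and, FULL_bit ho', shl_one, shl_one,
        hS.comp P hP.1 0 o hP.2.1 ho, hS.comp P hP.1 p o hP.2.2 ho]; rfl)
    (by rw [eqL_sound hc]; exact hL)
  intro P hP h0
  exact h.1 P ⟨hP, h0⟩

/-- Last stage: no pattern, only option 0. -/
theorem last_sound {V0 : (Nat → Prop) → Prop} (hV : PullV V0) {pats : List Nat} (hpats : ∀ p ∈ pats, p < 720)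
    {F : Nat → Nat} {H : Nat → Nat → Bool} (hS : Sound F G0 H (VS V0 pats))
    {act : Nat → Nat → Nat} {Rl : List Nat} (hW : ∀ g ∈ Rl, IsW act g)
    (hRl : allL (fun g => Nat.beq (act g 0) 0) Rl = true) {t : GT} {L : List Nat}
    (hL : ∀ a ∈ L, Bad (VS V0 pats) a)
    (hc : eqL (collect 720 F G0 act t (Nat.land FULL (F (Nat.shiftLeft 1 0))) Rl []) L = true) :
    ∀ P, VS V0 pats P → ¬ P 0 := by
  have h := collect_sound (N := 720) (act := act) hS t
    (Nat.land FULL (F (Nat.shiftLeft 1 0))) Rl []
    (fun P => VS V0 pats P ∧ P 0) (fun P hP => hP.1)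
    (fun g hg x hx => by
      obtain ⟨w, hw⟩ := hW g hg
      rw [hw x hx]; exact actP_lt hV w hx)
    (by
      intro g hg P hP
      obtain ⟨P', hP', hx⟩ := closed_act hV hpats (hW g hg) P hP.1
      have h1 : act g 0 = 0 := Nat.eq_of_beq_eq_true (allL_iff hRl g hg)
      exact ⟨P', ⟨hP', (hx 0 (by decide)).2 (by rw [h1]; exact hP.2)⟩, hx⟩)
    (by
      intro P hP o ho
      have ho' := hV.lt P hP.1.1 o ho
      show (FULL &&& (F (Nat.shiftLeft 1 0))).testBit o = true
      rw [Nat.testBit_and, FULL_bit ho', shl_one, hS.comp P hP.1 0 o hP.2 ho]; rfl)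
    (by rw [eqL_sound hc]; exact hL)
  intro P hP h0
  exact h.1 P ⟨hP, h0⟩

/-! ### Complete selections -/

noncomputable def inord (t : MT) : List Nat :=
  MT.rec (motive := fun _ => List Nat) [] (fun v _ _ ihl ihr => ihl ++ v :: ihr) t

theorem memT_inord {a : Nat} : ∀ {t : MT}, memT a t = true → a ∈ inord t := by
  intro t
  induction t with
  | lf => intro h; exact Bool.noConfusion h
  | nd v l r ihl ihr =>
    intro h
    have h2 : Bool.rec (motive := fun _ => Bool)
      (Bool.rec (motive := fun _ => Bool) (memT a r) (memT a l) (Nat.ble a v)) true (Nat.beq a v) = true := h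
    show a ∈ inord l ++ v :: inord r
    rw [List.mem_append, List.mem_cons]
    cases hb : Nat.beq a v with
    | true => exact Or.inr (Or.inl (Nat.eq_of_beq_eq_true hb))
    | false =>
      rw [hb] at h2
      cases hc : Nat.ble a v with
      | true => rw [hc] at h2; exact Or.inl (ihl h2)
      | false => rw [hc] at h2; exact Or.inr (Or.inr (ihr h2))

/-- all set bits `x` of `m` satisfy `f x`; `ix` recovers the index of a power of two -/
noncomputable def bitsL (ix : Nat → Nat) (f : Nat → Bool) (n : Nat) : Nat → Bool :=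
  Nat.rec (motive := fun _ => Nat → Bool) (fun m => Nat.beq m 0)
    (fun _ ih m => Bool.rec (motive := fun _ => Bool)
      (andB (Nat.beq (Nat.shiftLeft 1 (ix (Nat.xor m (Nat.land m (Nat.sub m 1))))) (Nat.xor m (Nat.land m (Nat.sub m 1))))
        (andB (f (ix (Nat.xor m (Nat.land m (Nat.sub m 1))))) (ih (Nat.land m (Nat.sub m 1)))))
      true (Nat.beq m 0)) n

theorem bitsL_sound {ix : Nat → Nat} {f : Nat → Bool} : ∀ {n m : Nat}, bitsL ix f n m = true →
    ∀ x, m.testBit x = true → f x = true := by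
  intro n
  induction n with
  | zero =>
    intro m h x hx
    have h1 : m = 0 := Nat.eq_of_beq_eq_true h
    rw [h1, Nat.zero_testBit] at hx; exact Bool.noConfusion hx
  | succ n ih =>
    intro m h x hx
    have h1 : Bool.rec (motive := fun _ => Bool)
      (andB (Nat.beq (Nat.shiftLeft 1 (ix (Nat.xor m (Nat.land m (Nat.sub m 1))))) (Nat.xor m (Nat.land m (Nat.sub m 1))))
        (andB (f (ix (Nat.xor m (Nat.land m (Nat.sub m 1))))) (bitsL ix f n (Nat.land m (Nat.sub m 1)))))
      true (Nat.beq m 0) = true := h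
    cases hz : Nat.beq m 0 with
    | true =>
      have h2 : m = 0 := Nat.eq_of_beq_eq_true hz
      rw [h2, Nat.zero_testBit] at hx; exact Bool.noConfusion hx
    | false =>
      rw [hz] at h1
      obtain ⟨h2, h3⟩ := andB_iff h1
      obtain ⟨h3, h4⟩ := andB_iff h3
      have hm : m ≠ 0 := by
        intro h0; rw [h0] at hz; exact Bool.noConfusion hz
      obtain ⟨o, ho1, ho2, ho3⟩ := low m hm
      have e1 : Nat.xor m (Nat.land m (Nat.sub m 1)) = 2 ^ o := ho2
      have h5 := Nat.eq_of_beq_eq_true h2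
      rw [e1, shl_one] at h5
      have h6 : ix (2 ^ o) = o := by
        have := congrArg (fun z => z.testBit o) h5
        simp only [Nat.testBit_two_pow] at this
        simpa using this
      by_cases hxo : x = o
      · rw [e1, h6] at h3; rw [hxo]; exact h3
      · apply ih h4 x
        show (m &&& (m - 1)).testBit x = true
        rw [ho3, hx]; simp [hxo]

noncomputable def nthB (l : List Nat) (f : Nat → Bool) : Nat → Bool :=
  List.rec (motive := fun _ => Nat → Bool) (fun _ => false)
    (fun m _ ih k => Bool.rec (motive := fun _ => Bool) (ih (Nat.sub k 1)) (f m) (Nat.beq k 0)) l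

theorem nthB_spec {f : Nat → Bool} : ∀ {l : List Nat} {k : Nat}, nthB l f k = true → ∃ m ∈ l, f m = true := by
  intro l
  induction l with
  | nil => intro k h; exact Bool.noConfusion h
  | cons b l ih =>
    intro k h
    have h1 : Bool.rec (motive := fun _ => Bool) (nthB l f (Nat.sub k 1)) (f b) (Nat.beq k 0) = true := h
    cases hk : Nat.beq k 0 with
    | true => rw [hk] at h1; exact ⟨b, List.mem_cons_self, h1⟩
    | false =>
      rw [hk] at h1
      obtain ⟨m, hm, h2⟩ := ih h1
      exact ⟨m, List.mem_cons_of_mem _ hm, h2⟩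

noncomputable def M45 : Nat := Nat.sub (Nat.shiftLeft 1 45) 1

/-- `e` packs a mask, a word and a class number -/
noncomputable def solOK (ix : Nat → Nat) (CL : List Nat) (e : Nat) : Bool :=
  nthB CL (fun S => bitsL ix (fun x => tb S (actP (Nat.land (Nat.shiftRight e 720) M45) x)) 60 (Nat.land e FULL))
    (Nat.shiftRight e 765)

theorem sol_bad {V0 : (Nat → Prop) → Prop} (hV : PullV V0) (hinv : ∀ d, d < 32 → ∀ x, x < 720 → A1 d (A1 d x) = x)
    {ix : Nat → Nat} {CL : List Nat} (hCL : ∀ m ∈ CL, ∀ P, V0 P → Sub P m → False) {e : Nat}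
    (h : solOK ix CL e = true) : ∀ P, V0 P → Sub P (Nat.land e FULL) → False := by
  intro P hP hsub
  obtain ⟨S, hS, h1⟩ := nthB_spec h
  obtain ⟨P', hP', h2⟩ := pushW hV hinv (Nat.land (Nat.shiftRight e 720) M45) P hP
  apply hCL S hS P' hP'
  intro y hy
  obtain ⟨x, _, hPx, hyx⟩ := h2 y hy
  have h3 := bitsL_sound h1 x (hsub x hPx)
  rw [tb_eq, ← hyx] at h3
  exact h3

noncomputable def mapF (l : List Nat) : List Nat :=
  List.rec (motive := fun _ => List Nat) [] (fun e _ ih => Nat.land e FULL :: ih) l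

theorem mapF_mem {a : Nat} : ∀ {l : List Nat}, a ∈ mapF l → ∃ e ∈ l, a = Nat.land e FULL := by
  intro l
  induction l with
  | nil => intro h; exact absurd h (by show ¬ a ∈ ([] : List Nat); simp)
  | cons b l ih =>
    intro h
    have h1 : a ∈ Nat.land b FULL :: mapF l := h
    rcases List.mem_cons.1 h1 with h2 | h2
    · exact ⟨b, List.mem_cons_self, h2⟩
    · obtain ⟨e, he, h3⟩ := ih h2
      exact ⟨e, List.mem_cons_of_mem _ he, h3⟩

/-- masks of a tree of complete selections are bad -/
theorem tree_bad {V0 : (Nat → Prop) → Prop} (hV : PullV V0) (hinv : ∀ d, d < 32 → ∀ x, x < 720 → A1 d (A1 d x) = x)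
    {ix : Nat → Nat} {CL : List Nat} (hCL : ∀ m ∈ CL, ∀ P, V0 P → Sub P m → False) {KT : MT} {SW : List Nat}
    (h1 : eqL (inord KT) (mapF SW) = true) (h2 : ∀ e ∈ SW, solOK ix CL e = true) :
    ∀ a, memT a KT = true → ∀ P, V0 P → Sub P a → False := by
  intro a ha
  have h3 := memT_inord ha
  rw [eqL_sound h1] at h3
  obtain ⟨e, he, h4⟩ := mapF_mem h3
  rw [h4]
  exact sol_bad hV hinv hCL (h2 e he)

end Pool.Agent.W708.OC
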