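import Pool.Agent.W708.OC.X5
import Pool.Agent.W708.OC.Stage
/-!
The generators are involutions.
-/
set_option autoImplicit false
set_option maxRecDepth 100000

namespace Pool.Agent.W708.OC

theorem inv0 : allB (fun d => allB (fun x => Nat.beq (A1 (Nat.add 0 d) (A1 (Nat.add 0 d) x)) x) 720) 4 = true := by decide +kernel
theorem inv1 : allB (fun d => allB (fun x => Nat.beq (A1 (Nat.add 4 d) (A1 (Nat.add 4 d) x)) x) 720) 4 = true := by decide +kernel
theorem inv2 : allB (fun d => allB (fun x => Nat.beq (A1 (Nat.add 8 d) (A1 (Nat.add 8 d) x)) x) 720) 4 = true := by decide +kernel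
theorem inv3 : allB (fun d => allB (fun x => Nat.beq (A1 (Nat.add 12 d) (A1 (Nat.add 12 d) x)) x) 720) 4 = true := by decide +kernel
theorem inv4 : allB (fun d => allB (fun x => Nat.beq (A1 (Nat.add 16 d) (A1 (Nat.add 16 d) x)) x) 720) 4 = true := by decide +kernel
theorem inv5 : allB (fun d => allB (fun x => Nat.beq (A1 (Nat.add 20 d) (A1 (Nat.add 20 d) x)) x) 720) 4 = true := by decide +kernel
theorem inv6 : allB (fun d => allB (fun x => Nat.beq (A1 (Nat.add 24 d) (A1 (Nat.add 24 d) x)) x) 720) 4 = true := by decide +kernel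
theorem inv7 : allB (fun d => allB (fun x => Nat.beq (A1 (Nat.add 28 d) (A1 (Nat.add 28 d) x)) x) 720) 4 = true := by decide +kernel

theorem inv_all (d : Nat) (hd : d < 32) (x : Nat) (hx : x < 720) : A1 d (A1 d x) = x := by
  have key : ∀ j, j ≤ d → d < j + 4 → allB (fun d => allB (fun x => Nat.beq (A1 (Nat.add j d) (A1 (Nat.add j d) x)) x) 720) 4 = true →
      A1 d (A1 d x) = x := by
    intro j h1 h2 h3
    have h4 := allB_iff (allB_iff h3 (d - j) (by omega)) x hx
    have e : Nat.add j (d - j) = d := by show j + (d - j) = d; omega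
    rw [e] at h4
    exact Nat.eq_of_beq_eq_true h4
  by_cases c0 : d < 4
  · exact key 0 (by omega) (by omega) inv0
  by_cases c1 : d < 8
  · exact key 4 (by omega) (by omega) inv1
  by_cases c2 : d < 12
  · exact key 8 (by omega) (by omega) inv2
  by_cases c3 : d < 16
  · exact key 12 (by omega) (by omega) inv3
  by_cases c4 : d < 20
  · exact key 16 (by omega) (by omega) inv4
  by_cases c5 : d < 24
  · exact key 20 (by omega) (by omega) inv5
  by_cases c6 : d < 28
  · exact key 24 (by omega) (by omega) inv6
  exact key 28 (by omega) (by omega) inv7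

end Pool.Agent.W708.OC
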