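import Pool.Agent.W708.OC.K0_0
import Pool.Agent.W708.OC.K0_1
import Pool.Agent.W708.OC.K0_2
import Pool.Agent.W708.OC.K0_3
import Pool.Agent.W708.OC.K0_4
import Pool.Agent.W708.OC.T0
/-!
Complete selections of stage 0.
-/
set_option autoImplicit false
set_option maxRecDepth 100000

namespace Pool.Agent.W708.OC

namespace S0K

noncomputable def SW : List Nat := sw0 ++ (sw1 ++ (sw2 ++ (sw3 ++ (sw4 ++ (sw5 ++ (sw6 ++ (sw7 ++ (sw8 ++ (sw9 ++ (sw10 ++ (sw11 ++ (sw12 ++ (sw13 ++ (sw14 ++ (sw15 ++ (sw16 ++ (sw17 ++ (sw18 ++ (sw19 ++ (sw20 ++ (sw21 ++ (sw22 ++ (sw23 ++ (sw24 ++ (sw25 ++ (sw26 ++ (sw27 ++ (sw28 ++ (sw29 ++ (sw30 ++ (sw31 ++ (sw32 ++ (sw33 ++ (sw34 ++ (sw35 ++ (sw36 ++ (sw37 ++ (sw38 ++ (sw39 ++ (sw40 ++ (sw41 ++ (sw42 ++ (sw43 ++ (sw44 ++ (sw45 ++ (sw46 ++ (sw47 ++ (sw48))))))))))))))))))))))))))))))))))))))))))))))))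
theorem inq : eqL (inord S0.KT) (mapF SW) = true := by decide +kernel
theorem sws : ∀ e ∈ SW, solOK ix CL e = true := by
  intro e he
  unfold SW at he
  simp only [List.mem_append] at he
  rcases he with h | h | h | h | h | h | h | h | h | h | h | h | h | h | h | h | h | h | h | h | h | h | h | h | h | h | h | h | h | h | h | h | h | h | h | h | h | h | h | h | h | h | h | h | h | h | h | h | h
  · exact allL_iff so0 e h
  · exact allL_iff so1 e h
  · exact allL_iff so2 e h
  · exact allL_iff so3 e h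
  · exact allL_iff so4 e h
  · exact allL_iff so5 e h
  · exact allL_iff so6 e h
  · exact allL_iff so7 e h
  · exact allL_iff so8 e h
  · exact allL_iff so9 e h
  · exact allL_iff so10 e h
  · exact allL_iff so11 e h
  · exact allL_iff so12 e h
  · exact allL_iff so13 e h
  · exact allL_iff so14 e h
  · exact allL_iff so15 e h
  · exact allL_iff so16 e h
  · exact allL_iff so17 e h
  · exact allL_iff so18 e h
  · exact allL_iff so19 e h
  · exact allL_iff so20 e h
  · exact allL_iff so21 e h
  · exact allL_iff so22 e h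
  · exact allL_iff so23 e h
  · exact allL_iff so24 e h
  · exact allL_iff so25 e h
  · exact allL_iff so26 e h
  · exact allL_iff so27 e h
  · exact allL_iff so28 e h
  · exact allL_iff so29 e h
  · exact allL_iff so30 e h
  · exact allL_iff so31 e h
  · exact allL_iff so32 e h
  · exact allL_iff so33 e h
  · exact allL_iff so34 e h
  · exact allL_iff so35 e h
  · exact allL_iff so36 e h
  · exact allL_iff so37 e h
  · exact allL_iff so38 e h
  · exact allL_iff so39 e h
  · exact allL_iff so40 e h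
  · exact allL_iff so41 e h
  · exact allL_iff so42 e h
  · exact allL_iff so43 e h
  · exact allL_iff so44 e h
  · exact allL_iff so45 e h
  · exact allL_iff so46 e h
  · exact allL_iff so47 e h
  · exact allL_iff so48 e h

end S0K

end Pool.Agent.W708.OC
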