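import Pool.Agent.W708.OC.K0_2
import Pool.Agent.W708.OC.Cls
/-!
Complete selections of stage 1, part 1.
-/
set_option autoImplicit false
set_option maxRecDepth 100000

namespace Pool.Agent.W708.OC

namespace S1K

noncomputable def sw10 : List Nat := [(nat_lit 0xae00023229041800010004200020008010400008100020040100008400002001020008040001004800002400080200100080004001200040010002080040200010008400020800010001800020004001040002080200080100400800004200001),
  (nat_lit 0xcc000232284e2800010200040010080004200008001200004001800040020100040200008004100008020200004800100040010002800002004080001400020100008020400080010001800200004001040002080080004010200400020800001),
  (nat_lit 0x2a0002d3a3ce6800010200040010080004200008001200004001800040020100040200008004100008020400020800100040010002800002004080001200004100008020400080010001800200004001040002080080004010200400020800001),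
  (nat_lit 0x700002d58394b800010200040010080004200008400200001001800004020100040200008004100008020200004800100040010002800002004080001001020400008020400080010001800200004010040002080080004010200400020800001),
  (nat_lit 0xae0000128a905800020100400020100008040008040100020080020004100020800001040001200040008400080002100002800400001008010004020008004100002400001020008001200080040080010004200400020100080008400200001),
  (nat_lit 0xa800000083144800040001200020001040800008400020001400008100200008040200010004008010002200040800100020800001400040100020080080100004200100004080002002040008010004020100080080004010200008002400001)]
theorem so10 : allL (solOK ix CL) sw10 = true := by decide +kernel

end S1K

end Pool.Agent.W708.OC
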