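import Pool.Agent.W708.OC.K1_0
import Pool.Agent.W708.OC.K1_1
import Pool.Agent.W708.OC.T1
/-!
Complete selections of stage 1.
-/
set_option autoImplicit false
set_option maxRecDepth 100000

namespace Pool.Agent.W708.OC

namespace S1K

noncomputable def SW : List Nat := sw0 ++ (sw1 ++ (sw2 ++ (sw3 ++ (sw4 ++ (sw5 ++ (sw6 ++ (sw7 ++ (sw8 ++ (sw9 ++ (sw10))))))))))
theorem inq : eqL (inord S1.KT) (mapF SW) = true := by decide +kernel
theorem sws : ∀ e ∈ SW, solOK ix CL e = true := by
  intro e he
  unfold SW at he
  simp only [List.mem_append] at he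
  rcases he with h | h | h | h | h | h | h | h | h | h | h
  · exact allL_iff so0 e h
  · exact allL_iff so1 e h
  · exact allL_iff so2 e h
  · exact allL_iff so3 e h
  · exact allL_iff so4 e h
  · exact allL_iff so5 e h
  · exact allL_iff so6 e h
  · exact allL_iff so7 e h
  · exact allL_iff so8 e h
  · exact allL_iff so9 e h
  · exact allL_iff so10 e h

end S1K

end Pool.Agent.W708.OC
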