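import Pool.Agent.W708.OC.K2_0
import Pool.Agent.W708.OC.T2
/-!
Complete selections of stage 2.
-/
set_option autoImplicit false
set_option maxRecDepth 100000

namespace Pool.Agent.W708.OC

namespace S2K

noncomputable def SW : List Nat := sw0
theorem inq : eqL (inord S2.KT) (mapF SW) = true := by decide +kernel
theorem sws : ∀ e ∈ SW, solOK ix CL e = true := fun e he => allL_iff so0 e he

end S2K

end Pool.Agent.W708.OC
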