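import Pool.Agent.W708.OC.X6
import Pool.Agent.W708.OC.Cls
import Pool.Agent.W708.OC.T0
import Pool.Agent.W708.OC.T1
/-!
From the tables of stage 0 to those of stage 1.
-/
set_option autoImplicit false
set_option maxRecDepth 100000

namespace Pool.Agent.W708.OC

namespace S0N

noncomputable def us : List Nat := [(nat_lit 0x0), (nat_lit 0x1), (nat_lit 0xf), (nat_lit 0x1e1)]

theorem nu : allL (okU 304) us = true := by decide +kernel
theorem nc0 : allB (fun i => next_chk tw 304 us S0.F S1.F (Nat.add 0 i)) 180 = true := by decide +kernel
theorem nc1 : allB (fun i => next_chk tw 304 us S0.F S1.F (Nat.add 180 i)) 180 = true := by decide +kernel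
theorem nc2 : allB (fun i => next_chk tw 304 us S0.F S1.F (Nat.add 360 i)) 180 = true := by decide +kernel
theorem nc3 : allB (fun i => next_chk tw 304 us S0.F S1.F (Nat.add 540 i)) 180 = true := by decide +kernel

theorem nc {o : Nat} (ho : o < 720) : next_chk tw 304 us S0.F S1.F o = true := by
  have key : ∀ j, j ≤ o → o < j + 180 → allB (fun i => next_chk tw 304 us S0.F S1.F (Nat.add j i)) 180 = true →
      next_chk tw 304 us S0.F S1.F o = true := by
    intro j h1 h2 h3
    have h4 := allB_iff h3 (o - j) (by omega)
    have e : Nat.add j (o - j) = o := by show j + (o - j) = o; omega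
    rw [e] at h4; exact h4
  by_cases c0 : o < 180
  · exact key 0 (by omega) (by omega) nc0
  by_cases c1 : o < 360
  · exact key 180 (by omega) (by omega) nc1
  by_cases c2 : o < 540
  · exact key 360 (by omega) (by omega) nc2
  exact key 540 (by omega) (by omega) nc3

end S0N

end Pool.Agent.W708.OC
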