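import Pool.Agent.W708.OC.EGlue
import Pool.Agent.W708.OC.Inv
import Pool.Agent.W708.OC.N0
import Pool.Agent.W708.OC.N1
import Pool.Agent.W708.OC.N2
import Pool.Agent.W708.OC.N3
import Pool.Agent.W708.OC.N4
import Pool.Agent.W708.OC.N5
import Pool.Agent.W708.OC.K0
import Pool.Agent.W708.OC.K1
import Pool.Agent.W708.OC.K2
import Pool.Agent.W708.OC.G0
import Pool.Agent.W708.OC.G1
import Pool.Agent.W708.OC.G2
import Pool.Agent.W708.OC.G3
import Pool.Agent.W708.OC.G4
import Pool.Agent.W708.OC.G5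
import Pool.Agent.W708.OC.G6
/-!
There is no good family for the 6-cube.
-/
set_option autoImplicit false

namespace Pool.Agent.W708.OC

theorem tree_known {KT : MT} {SW : List Nat} (h1 : eqL (inord KT) (mapF SW) = true)
    (h2 : ∀ e ∈ SW, solOK ix CL e = true) {a : Nat} (ha : memT a KT = true) {P : Nat → Prop} (hP : V P)
    (hsub : Sub P a) : False :=
  tree_bad V_pullV inv_all CL_ref h1 h2 a ha P hP hsub

/-- soundness of the tables of a stage -/
theorem mk_sound {pats : List Nat} {F : Nat → Nat} {KT : MT}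
    (hcomp : ∀ P, VS V pats P → ∀ o p, P o → P p → (F (2 ^ o)).testBit p = true)
    (hk : ∀ a, memT a KT = true → ∀ P, V P → Sub P a → False) :
    Sound F G0 (fun c a => Bool.rec (motive := fun _ => Bool) true (memT a KT) (Nat.ble 240 c)) (VS V pats) where
  item := fun P hP c => V_item hP.1 c
  comp := hcomp
  known := fun P hP c a hG hH hsub => by
    cases hb : Nat.ble 240 c with
    | true =>
      rw [hb] at hH
      exact hk a hH P hP.1 hsub
    | false =>
      rcases V_item2 hP.1 c with h | ⟨o, ho, h⟩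
      · rw [Nat.ble_eq_true_of_le h.1] at hb; exact Bool.noConfusion hb
      · rw [hG] at h; simp at h

theorem B0 : allB (base_chk S0.F) 720 = true := by decide +kernel

theorem comp0 : ∀ P, VS V [] P → ∀ o p, P o → P p → (S0.F (2 ^ o)).testBit p = true := by
  intro P hP o p ho hp
  exact base_comp B0 (V_pullV.lt P hP.1 o ho) (V_pullV.lt P hP.1 p hp)
    (fun hne k hk => V_conf hP.1 ho hp hne k hk)

theorem no_known (a : Nat) (h : memT a .lf = true) (P : Nat → Prop) (_ : V P) (_ : Sub P a) : False :=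
  Bool.noConfusion h

theorem snd0 : Sound S0.F G0 S0.H (VS V []) :=
  mk_sound comp0 (fun a ha P hP hs => tree_known S0K.inq S0K.sws ha hP hs)

theorem T0 : ∀ P, VS V [] P → ¬ (P 0 ∧ P 304) :=
  S0G.stage V_pullV (by simp) snd0

theorem down {pats : List Nat} {p : Nat} {P : Nat → Prop} (h : VS V (p :: pats) P) : VS V pats P :=
  ⟨h.1, fun q hq => h.2 q (List.mem_cons_of_mem _ hq)⟩

theorem comp1 : ∀ P, VS V [304] P → ∀ o p, P o → P p → (S1.F (2 ^ o)).testBit p = true := by
  intro P hP o p ho hp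
  exact next_comp S0N.nu (fun o ho => S0N.nc ho) hP (V_pullV.lt P hP.1 o ho) (V_pullV.lt P hP.1 p hp) ho hp
    (comp0 P (down hP) o p ho hp)

theorem snd1 : Sound S1.F G0 S1.H (VS V [304]) :=
  mk_sound comp1 (fun a ha P hP hs => tree_known S1K.inq S1K.sws ha hP hs)

theorem T1 : ∀ P, VS V [304] P → ¬ (P 0 ∧ P 392) :=
  S1G.stage V_pullV (by simp) snd1

theorem comp2 : ∀ P, VS V [392, 304] P → ∀ o p, P o → P p → (S2.F (2 ^ o)).testBit p = true := by
  intro P hP o p ho hp
  exact next_comp S1N.nu (fun o ho => S1N.nc ho) hP (V_pullV.lt P hP.1 o ho) (V_pullV.lt P hP.1 p hp) ho hp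
    (comp1 P (down hP) o p ho hp)

theorem snd2 : Sound S2.F G0 S2.H (VS V [392, 304]) :=
  mk_sound comp2 (fun a ha P hP hs => tree_known S2K.inq S2K.sws ha hP hs)

theorem T2 : ∀ P, VS V [392, 304] P → ¬ (P 0 ∧ P 172) :=
  S2G.stage V_pullV (by simp) snd2

theorem comp3 : ∀ P, VS V [172, 392, 304] P → ∀ o p, P o → P p → (S3.F (2 ^ o)).testBit p = true := by
  intro P hP o p ho hp
  exact next_comp S2N.nu (fun o ho => S2N.nc ho) hP (V_pullV.lt P hP.1 o ho) (V_pullV.lt P hP.1 p hp) ho hp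
    (comp2 P (down hP) o p ho hp)

theorem snd3 : Sound S3.F G0 S3.H (VS V [172, 392, 304]) :=
  mk_sound comp3 no_known

theorem T3 : ∀ P, VS V [172, 392, 304] P → ¬ (P 0 ∧ P 716) :=
  S3G.stage V_pullV (by simp) snd3

theorem comp4 : ∀ P, VS V [716, 172, 392, 304] P → ∀ o p, P o → P p → (S4.F (2 ^ o)).testBit p = true := by
  intro P hP o p ho hp
  exact next_comp S3N.nu (fun o ho => S3N.nc ho) hP (V_pullV.lt P hP.1 o ho) (V_pullV.lt P hP.1 p hp) ho hp
    (comp3 P (down hP) o p ho hp)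

theorem snd4 : Sound S4.F G0 S4.H (VS V [716, 172, 392, 304]) :=
  mk_sound comp4 no_known

theorem T4 : ∀ P, VS V [716, 172, 392, 304] P → ¬ (P 0 ∧ P 308) :=
  S4G.stage V_pullV (by simp) snd4

theorem comp5 : ∀ P, VS V [308, 716, 172, 392, 304] P → ∀ o p, P o → P p → (S5.F (2 ^ o)).testBit p = true := by
  intro P hP o p ho hp
  exact next_comp S4N.nu (fun o ho => S4N.nc ho) hP (V_pullV.lt P hP.1 o ho) (V_pullV.lt P hP.1 p hp) ho hp
    (comp4 P (down hP) o p ho hp)

theorem snd5 : Sound S5.F G0 S5.H (VS V [308, 716, 172, 392, 304]) :=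
  mk_sound comp5 no_known

theorem T5 : ∀ P, VS V [308, 716, 172, 392, 304] P → ¬ (P 0 ∧ P 704) :=
  S5G.stage V_pullV (by simp) snd5

theorem comp6 : ∀ P, VS V [704, 308, 716, 172, 392, 304] P → ∀ o p, P o → P p → (S6.F (2 ^ o)).testBit p = true := by
  intro P hP o p ho hp
  exact next_comp S5N.nu (fun o ho => S5N.nc ho) hP (V_pullV.lt P hP.1 o ho) (V_pullV.lt P hP.1 p hp) ho hp
    (comp5 P (down hP) o p ho hp)

theorem snd6 : Sound S6.F G0 S6.H (VS V [704, 308, 716, 172, 392, 304]) :=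
  mk_sound comp6 no_known

theorem T6 : ∀ P, VS V [704, 308, 716, 172, 392, 304] P → ¬ P 0 :=
  S6G.stage V_pullV (by simp) snd6

theorem VS_all {P : Nat → Prop} (hP : V P) : VS V [704, 308, 716, 172, 392, 304] P := by
  have h0 : VS V [] P := ⟨hP, by simp⟩
  have h1 : VS V [304] P := VS_next V_pullV [] (by simp) 304 (by decide) T0 P h0
  have h2 : VS V [392, 304] P := VS_next V_pullV _ (by simp) 392 (by decide) T1 P h1
  have h3 : VS V [172, 392, 304] P := VS_next V_pullV _ (by simp) 172 (by decide) T2 P h2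
  have h4 : VS V [716, 172, 392, 304] P := VS_next V_pullV _ (by simp) 716 (by decide) T3 P h3
  have h5 : VS V [308, 716, 172, 392, 304] P := VS_next V_pullV _ (by simp) 308 (by decide) T4 P h4
  exact VS_next V_pullV _ (by simp) 704 (by decide) T5 P h5

theorem tw_ok : allB (fun o => Nat.beq (actP (tw o) 0) o) 720 = true := by decide +kernel

/-- no admissible selection exists -/
theorem V_empty {P : Nat → Prop} (hP : V P) : False := by
  obtain ⟨o, ho, _⟩ : ∃ o, P o ∧ (G0 0).testBit o = true := by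
    rcases V_item2 hP 0 with h | h
    · exact absurd h.1 (by decide)
    · exact h
  have ho' := V_pullV.lt P hP o ho
  have h1 : actP (tw o) 0 = o := Nat.eq_of_beq_eq_true (allB_iff tw_ok o ho')
  obtain ⟨P', hP', hx⟩ := pullP V_pullV (tw o) P hP
  exact T6 P' (VS_all hP') ((hx 0 (by decide)).2 (by rw [h1]; exact ho))

theorem no_good (R : Fin 4 → F6 → F6 → Prop) (hR : Good R) : False :=
  V_empty (P := PR R) ⟨R, hR, fun _ => Iff.rfl⟩

end Pool.Agent.W708.OC
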