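import Pool.Agent.W708.OC.Util
/-!
Closure of a class of selections under words in the generators.
-/
set_option autoImplicit false
set_option linter.unusedSimpArgs false
set_option linter.unusedSectionVars false

namespace Pool.Agent.W708.OC

/-- What is needed about the generators. -/
structure PullV (V : (Nat → Prop) → Prop) : Prop where
  lt : ∀ P, V P → ∀ o, P o → o < 720
  pull : ∀ d, d < 32 → ∀ P, V P → V (fun o => o < 720 ∧ P (A1 d o))
  a1lt : ∀ d, d < 32 → ∀ o, o < 720 → A1 d o < 720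

theorem A2_zero (o : Nat) : A2 0 o = o := rfl

theorem A2_succ (d o : Nat) : A2 (d + 1) o = A1 (d + 1) o := rfl

noncomputable def actL : List Nat → Nat → Nat
  | [], x => x
  | d :: ds, x => actL ds (A2 d x)

theorem actP_eq (w x : Nat) : actP w x =
    actL [dg w 0, dg w 5, dg w 10, dg w 15, dg w 20, dg w 25, dg w 30, dg w 35, dg w 40] x := rfl

section
variable {V : (Nat → Prop) → Prop} (hV : PullV V)
include hV

theorem A2_lt {d : Nat} (hd : d < 32) {x : Nat} (hx : x < 720) : A2 d x < 720 := by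
  cases d with
  | zero => exact hx
  | succ d => rw [A2_succ]; exact hV.a1lt _ hd _ hx

theorem actL_lt : ∀ (ds : List Nat), (∀ d ∈ ds, d < 32) → ∀ x, x < 720 → actL ds x < 720 := by
  intro ds
  induction ds with
  | nil => intro _ x hx; exact hx
  | cons d ds ih =>
    intro h x hx
    exact ih (fun e he => h e (List.mem_cons_of_mem _ he)) _ (A2_lt hV (h d List.mem_cons_self) hx)

theorem pullA2 {d : Nat} (hd : d < 32) (P : Nat → Prop) (hP : V P) :
    ∃ P', V P' ∧ ∀ x, x < 720 → (P' x ↔ P (A2 d x)) := by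
  cases d with
  | zero => exact ⟨P, hP, fun x _ => Iff.rfl⟩
  | succ d => exact ⟨_, hV.pull _ hd P hP, fun x hx => ⟨fun h => h.2, fun h => ⟨hx, h⟩⟩⟩

theorem pullL : ∀ (ds : List Nat), (∀ d ∈ ds, d < 32) → ∀ P, V P →
    ∃ P', V P' ∧ ∀ x, x < 720 → (P' x ↔ P (actL ds x)) := by
  intro ds
  induction ds with
  | nil => intro _ P hP; exact ⟨P, hP, fun x _ => Iff.rfl⟩
  | cons d ds ih =>
    intro h P hP
    obtain ⟨P1, hP1, h1⟩ := ih (fun e he => h e (List.mem_cons_of_mem _ he)) P hP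
    obtain ⟨P2, hP2, h2⟩ := pullA2 hV (h d List.mem_cons_self) P1 hP1
    refine ⟨P2, hP2, fun x hx => ?_⟩
    exact (h2 x hx).trans (h1 _ (A2_lt hV (h d List.mem_cons_self) hx))

theorem digits_lt (w : Nat) : ∀ d ∈ [dg w 0, dg w 5, dg w 10, dg w 15, dg w 20, dg w 25, dg w 30, dg w 35, dg w 40],
    d < 32 := by
  intro d hd
  simp only [List.mem_cons, List.not_mem_nil, or_false] at hd
  rcases hd with h | h | h | h | h | h | h | h | h <;> rw [h] <;> exact dg_lt _ _

theorem actP_lt (w : Nat) {x : Nat} (hx : x < 720) : actP w x < 720 := by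
  rw [actP_eq]; exact actL_lt hV _ (digits_lt hV w) x hx

theorem pullP (w : Nat) (P : Nat → Prop) (hP : V P) :
    ∃ P', V P' ∧ ∀ x, x < 720 → (P' x ↔ P (actP w x)) := by
  obtain ⟨P', h1, h2⟩ := pullL hV _ (digits_lt hV w) P hP
  exact ⟨P', h1, fun x hx => by rw [actP_eq]; exact h2 x hx⟩

/-- pushing along a word, when the generators are involutions -/
theorem pushL (hinv : ∀ d, d < 32 → ∀ x, x < 720 → A1 d (A1 d x) = x) : ∀ (ds : List Nat), (∀ d ∈ ds, d < 32) →
    ∀ P, V P → ∃ P', V P' ∧ ∀ y, P' y → ∃ x, x < 720 ∧ P x ∧ y = actL ds x := by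
  intro ds
  induction ds with
  | nil => intro _ P hP; exact ⟨P, hP, fun y hy => ⟨y, hV.lt P hP y hy, hy, rfl⟩⟩
  | cons d ds ih =>
    intro h P hP
    obtain ⟨P1, hP1, h1⟩ := pullA2 hV (h d List.mem_cons_self) P hP
    obtain ⟨P2, hP2, h2⟩ := ih (fun e he => h e (List.mem_cons_of_mem _ he)) P1 hP1
    refine ⟨P2, hP2, fun y hy => ?_⟩
    obtain ⟨x, hx, hPx, hyx⟩ := h2 y hy
    have hd := h d List.mem_cons_self
    refine ⟨A2 d x, A2_lt hV hd hx, (h1 x hx).1 hPx, ?_⟩
    show y = actL ds (A2 d (A2 d x))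
    have h3 : A2 d (A2 d x) = x := by
      cases d with
      | zero => rfl
      | succ d => rw [A2_succ, A2_succ]; exact hinv _ hd x hx
    rw [h3]; exact hyx

theorem pushW (hinv : ∀ d, d < 32 → ∀ x, x < 720 → A1 d (A1 d x) = x) (w : Nat) (P : Nat → Prop) (hP : V P) :
    ∃ P', V P' ∧ ∀ y, P' y → ∃ x, x < 720 ∧ P x ∧ y = actP w x := by
  obtain ⟨P', h1, h2⟩ := pushL hV hinv _ (digits_lt hV w) P hP
  exact ⟨P', h1, fun y hy => by
    obtain ⟨x, hx, hPx, hyx⟩ := h2 y hy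
    exact ⟨x, hx, hPx, by rw [actP_eq]; exact hyx⟩⟩

end

/-! ### Stages -/

/-- `P` avoids all images of the pairs `(0, p)`, `p ∈ pats` -/
def VS (V : (Nat → Prop) → Prop) (pats : List Nat) (P : Nat → Prop) : Prop :=
  V P ∧ ∀ p ∈ pats, ∀ W : List Nat, ¬ (P (actW actP W 0) ∧ P (actW actP W p))

section
variable {V : (Nat → Prop) → Prop} (hV : PullV V)
include hV

theorem actWP_lt (W : List Nat) {x : Nat} (hx : x < 720) : actW actP W x < 720 := by
  induction W with
  | nil => exact hx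
  | cons g W ih => exact actP_lt hV g ih

theorem VS_closed (pats : List Nat) (hp : ∀ p ∈ pats, p < 720) (g : Nat) : Closed 720 actP (VS V pats) g := by
  intro P hP
  obtain ⟨P', hP', hx⟩ := pullP hV g P hP.1
  refine ⟨P', ⟨hP', ?_⟩, hx⟩
  intro p hpm W hW
  apply hP.2 p hpm (g :: W)
  exact ⟨(hx _ (actWP_lt hV W (by decide))).1 hW.1, (hx _ (actWP_lt hV W (hp p hpm))).1 hW.2⟩

theorem VS_closedW (pats : List Nat) (hp : ∀ p ∈ pats, p < 720) : ∀ (W : List Nat) (P : Nat → Prop), VS V pats P →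
    ∃ P', VS V pats P' ∧ ∀ x, x < 720 → (P' x ↔ P (actW actP W x)) := by
  intro W
  induction W with
  | nil => intro P hP; exact ⟨P, hP, fun x _ => Iff.rfl⟩
  | cons g W ih =>
    intro P hP
    obtain ⟨P1, hP1, h1⟩ := VS_closed hV pats hp g P hP
    obtain ⟨P2, hP2, h2⟩ := ih P1 hP1
    exact ⟨P2, hP2, fun x hx => (h2 x hx).trans (h1 _ (actWP_lt hV W hx))⟩

theorem VS_next (pats : List Nat) (hp : ∀ p ∈ pats, p < 720) (p0 : Nat) (hp0 : p0 < 720)
    (hT : ∀ P, VS V pats P → ¬ (P 0 ∧ P p0)) (P : Nat → Prop) (hP : VS V pats P) : VS V (p0 :: pats) P := by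
  refine ⟨hP.1, ?_⟩
  intro p hpm W hW
  rcases List.mem_cons.1 hpm with h | h
  · rw [h] at hW
    obtain ⟨P', hP', hx⟩ := VS_closedW hV pats hp W P hP
    exact hT P' hP' ⟨(hx 0 (by decide)).2 hW.1, (hx p0 hp0).2 hW.2⟩
  · exact hP.2 p h W hW

end

end Pool.Agent.W708.OC
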