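import Pool.Agent.W708.OC.C0_0p0
import Pool.Agent.W708.OC.C0_0p1
import Pool.Agent.W708.OC.C0_0p2
import Pool.Agent.W708.OC.C0_0p3
import Pool.Agent.W708.OC.C0_0p4
import Pool.Agent.W708.OC.C0_0p5
import Pool.Agent.W708.OC.C0_0p6
set_option autoImplicit false
set_option maxRecDepth 100000

namespace Pool.Agent.W708.OC.S0.C0_0
open Pool.Agent.W708.OC Pool.Agent.W708.OC.S0

noncomputable def l0 : List Nat := [(nat_lit 0xfffff7ffff7ffffffeffffefff7ffeff55c0ffffffff5ff5f7ffef5c0ff5fffffeffffefdd5ddccc0002ffffffee0ff8e6ee0e010ee8ffeffeffe0eeffffffffeffefeffef0eeffe660001666800002800100040ee4ee8ee0001)]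
theorem e0 : eqs (mkS l0) C0_0p0.s0 = true := by decide +kernel
theorem e1 : eqs C0_0p0.se C0_0p1.s0 = true := by decide +kernel
theorem e2 : eqs C0_0p1.se C0_0p2.s0 = true := by decide +kernel
theorem e3 : eqs C0_0p2.se C0_0p3.s0 = true := by decide +kernel
theorem e4 : eqs C0_0p3.se C0_0p4.s0 = true := by decide +kernel
theorem e5 : eqs C0_0p4.se C0_0p5.s0 = true := by decide +kernel
theorem e6 : eqs C0_0p5.se C0_0p6.s0 = true := by decide +kernel
theorem ef : eqs C0_0p6.se .nil = true := by decide +kernel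
theorem ab0 {V : (Nat → Prop) → Prop} (hS : Sound F G0 H V) : AllBad V (mkS l0) := by
  rw [eqs_sound _ _ e0]; apply C0_0p0.ch hS
  rw [eqs_sound _ _ e1]; apply C0_0p1.ch hS
  rw [eqs_sound _ _ e2]; apply C0_0p2.ch hS
  rw [eqs_sound _ _ e3]; apply C0_0p3.ch hS
  rw [eqs_sound _ _ e4]; apply C0_0p4.ch hS
  rw [eqs_sound _ _ e5]; apply C0_0p5.ch hS
  rw [eqs_sound _ _ e6]; apply C0_0p6.ch hS
  rw [eqs_sound _ _ ef]; trivial
theorem ab {V : (Nat → Prop) → Prop} (hS : Sound F G0 H V) : ∀ a ∈ l0, Bad V a := mkS_bad (ab0 hS)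

end Pool.Agent.W708.OC.S0.C0_0
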