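import Pool.Agent.W708.OC.C0_1p0
import Pool.Agent.W708.OC.C0_1p1
import Pool.Agent.W708.OC.C0_1p2
import Pool.Agent.W708.OC.C0_1p3
import Pool.Agent.W708.OC.C0_1p4
import Pool.Agent.W708.OC.C0_1p5
import Pool.Agent.W708.OC.C0_1p6
import Pool.Agent.W708.OC.C0_1p7
import Pool.Agent.W708.OC.C0_1p8
import Pool.Agent.W708.OC.C0_1p9
import Pool.Agent.W708.OC.C0_1p10
import Pool.Agent.W708.OC.C0_1p11
import Pool.Agent.W708.OC.C0_1p12
import Pool.Agent.W708.OC.C0_1p13
import Pool.Agent.W708.OC.C0_1p14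
import Pool.Agent.W708.OC.C0_1p15
import Pool.Agent.W708.OC.C0_1p16
import Pool.Agent.W708.OC.C0_1p17
import Pool.Agent.W708.OC.C0_1p18
import Pool.Agent.W708.OC.C0_1p19
import Pool.Agent.W708.OC.C0_1p20
import Pool.Agent.W708.OC.C0_1p21
import Pool.Agent.W708.OC.C0_1p22
import Pool.Agent.W708.OC.C0_1p23
import Pool.Agent.W708.OC.C0_1p24
import Pool.Agent.W708.OC.C0_1p25
import Pool.Agent.W708.OC.C0_1p26
import Pool.Agent.W708.OC.C0_1p27
set_option autoImplicit false
set_option maxRecDepth 100000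

namespace Pool.Agent.W708.OC.S0.C0_1
open Pool.Agent.W708.OC Pool.Agent.W708.OC.S0

noncomputable def l0 : List Nat := [(nat_lit 0xfffffdffffdfffffffffffffffdfffffece0ffffffffeffefdffffce0ffefffffeffffef775776660008ffffffee0dd2ecee0e010cc2fffffeffefeeffffffffeffeffffeffeeffeee0001eeea00001200888040eeecc2ee0001)]
theorem e0 : eqs (mkS l0) C0_1p0.s0 = true := by decide +kernel
theorem e1 : eqs C0_1p0.se C0_1p1.s0 = true := by decide +kernel
theorem e2 : eqs C0_1p1.se C0_1p2.s0 = true := by decide +kernel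
theorem e3 : eqs C0_1p2.se C0_1p3.s0 = true := by decide +kernel
theorem e4 : eqs C0_1p3.se C0_1p4.s0 = true := by decide +kernel
theorem e5 : eqs C0_1p4.se C0_1p5.s0 = true := by decide +kernel
theorem e6 : eqs C0_1p5.se C0_1p6.s0 = true := by decide +kernel
theorem e7 : eqs C0_1p6.se C0_1p7.s0 = true := by decide +kernel
theorem e8 : eqs C0_1p7.se C0_1p8.s0 = true := by decide +kernel
theorem e9 : eqs C0_1p8.se C0_1p9.s0 = true := by decide +kernel
theorem e10 : eqs C0_1p9.se C0_1p10.s0 = true := by decide +kernel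
theorem e11 : eqs C0_1p10.se C0_1p11.s0 = true := by decide +kernel
theorem e12 : eqs C0_1p11.se C0_1p12.s0 = true := by decide +kernel
theorem e13 : eqs C0_1p12.se C0_1p13.s0 = true := by decide +kernel
theorem e14 : eqs C0_1p13.se C0_1p14.s0 = true := by decide +kernel
theorem e15 : eqs C0_1p14.se C0_1p15.s0 = true := by decide +kernel
theorem e16 : eqs C0_1p15.se C0_1p16.s0 = true := by decide +kernel
theorem e17 : eqs C0_1p16.se C0_1p17.s0 = true := by decide +kernel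
theorem e18 : eqs C0_1p17.se C0_1p18.s0 = true := by decide +kernel
theorem e19 : eqs C0_1p18.se C0_1p19.s0 = true := by decide +kernel
theorem e20 : eqs C0_1p19.se C0_1p20.s0 = true := by decide +kernel
theorem e21 : eqs C0_1p20.se C0_1p21.s0 = true := by decide +kernel
theorem e22 : eqs C0_1p21.se C0_1p22.s0 = true := by decide +kernel
theorem e23 : eqs C0_1p22.se C0_1p23.s0 = true := by decide +kernel
theorem e24 : eqs C0_1p23.se C0_1p24.s0 = true := by decide +kernel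
theorem e25 : eqs C0_1p24.se C0_1p25.s0 = true := by decide +kernel
theorem e26 : eqs C0_1p25.se C0_1p26.s0 = true := by decide +kernel
theorem e27 : eqs C0_1p26.se C0_1p27.s0 = true := by decide +kernel
theorem ef : eqs C0_1p27.se .nil = true := by decide +kernel
theorem ab0 {V : (Nat → Prop) → Prop} (hS : Sound F G0 H V) : AllBad V (mkS l0) := by
  rw [eqs_sound _ _ e0]; apply C0_1p0.ch hS
  rw [eqs_sound _ _ e1]; apply C0_1p1.ch hS
  rw [eqs_sound _ _ e2]; apply C0_1p2.ch hS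
  rw [eqs_sound _ _ e3]; apply C0_1p3.ch hS
  rw [eqs_sound _ _ e4]; apply C0_1p4.ch hS
  rw [eqs_sound _ _ e5]; apply C0_1p5.ch hS
  rw [eqs_sound _ _ e6]; apply C0_1p6.ch hS
  rw [eqs_sound _ _ e7]; apply C0_1p7.ch hS
  rw [eqs_sound _ _ e8]; apply C0_1p8.ch hS
  rw [eqs_sound _ _ e9]; apply C0_1p9.ch hS
  rw [eqs_sound _ _ e10]; apply C0_1p10.ch hS
  rw [eqs_sound _ _ e11]; apply C0_1p11.ch hS
  rw [eqs_sound _ _ e12]; apply C0_1p12.ch hS
  rw [eqs_sound _ _ e13]; apply C0_1p13.ch hS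
  rw [eqs_sound _ _ e14]; apply C0_1p14.ch hS
  rw [eqs_sound _ _ e15]; apply C0_1p15.ch hS
  rw [eqs_sound _ _ e16]; apply C0_1p16.ch hS
  rw [eqs_sound _ _ e17]; apply C0_1p17.ch hS
  rw [eqs_sound _ _ e18]; apply C0_1p18.ch hS
  rw [eqs_sound _ _ e19]; apply C0_1p19.ch hS
  rw [eqs_sound _ _ e20]; apply C0_1p20.ch hS
  rw [eqs_sound _ _ e21]; apply C0_1p21.ch hS
  rw [eqs_sound _ _ e22]; apply C0_1p22.ch hS
  rw [eqs_sound _ _ e23]; apply C0_1p23.ch hS
  rw [eqs_sound _ _ e24]; apply C0_1p24.ch hS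
  rw [eqs_sound _ _ e25]; apply C0_1p25.ch hS
  rw [eqs_sound _ _ e26]; apply C0_1p26.ch hS
  rw [eqs_sound _ _ e27]; apply C0_1p27.ch hS
  rw [eqs_sound _ _ ef]; trivial
theorem ab {V : (Nat → Prop) → Prop} (hS : Sound F G0 H V) : ∀ a ∈ l0, Bad V a := mkS_bad (ab0 hS)

end Pool.Agent.W708.OC.S0.C0_1
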