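import Pool.Agent.W708.OC.C0_2p0
import Pool.Agent.W708.OC.C0_2p1
import Pool.Agent.W708.OC.C0_2p2
import Pool.Agent.W708.OC.C0_2p3
import Pool.Agent.W708.OC.C0_2p4
import Pool.Agent.W708.OC.C0_2p5
import Pool.Agent.W708.OC.C0_2p6
import Pool.Agent.W708.OC.C0_2p7
import Pool.Agent.W708.OC.C0_2p8
import Pool.Agent.W708.OC.C0_2p9
set_option autoImplicit false
set_option maxRecDepth 100000

namespace Pool.Agent.W708.OC.S0.C0_2
open Pool.Agent.W708.OC Pool.Agent.W708.OC.S0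

noncomputable def l0 : List Nat := [(nat_lit 0xfffffffffffffffffeffffeffffffeffde0cffffffffdffdffffefe0cffdfffffeffffeffffffeee000affffffee0ffaeeee0e010eeaffeffeffeeeeffffffffeffefeffefeeeffecc0001ccc200010a000aa040eeceeaee0001)]
theorem e0 : eqs (mkS l0) C0_2p0.s0 = true := by decide +kernel
theorem e1 : eqs C0_2p0.se C0_2p1.s0 = true := by decide +kernel
theorem e2 : eqs C0_2p1.se C0_2p2.s0 = true := by decide +kernel
theorem e3 : eqs C0_2p2.se C0_2p3.s0 = true := by decide +kernel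
theorem e4 : eqs C0_2p3.se C0_2p4.s0 = true := by decide +kernel
theorem e5 : eqs C0_2p4.se C0_2p5.s0 = true := by decide +kernel
theorem e6 : eqs C0_2p5.se C0_2p6.s0 = true := by decide +kernel
theorem e7 : eqs C0_2p6.se C0_2p7.s0 = true := by decide +kernel
theorem e8 : eqs C0_2p7.se C0_2p8.s0 = true := by decide +kernel
theorem e9 : eqs C0_2p8.se C0_2p9.s0 = true := by decide +kernel
theorem ef : eqs C0_2p9.se .nil = true := by decide +kernel
theorem ab0 {V : (Nat → Prop) → Prop} (hS : Sound F G0 H V) : AllBad V (mkS l0) := by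
  rw [eqs_sound _ _ e0]; apply C0_2p0.ch hS
  rw [eqs_sound _ _ e1]; apply C0_2p1.ch hS
  rw [eqs_sound _ _ e2]; apply C0_2p2.ch hS
  rw [eqs_sound _ _ e3]; apply C0_2p3.ch hS
  rw [eqs_sound _ _ e4]; apply C0_2p4.ch hS
  rw [eqs_sound _ _ e5]; apply C0_2p5.ch hS
  rw [eqs_sound _ _ e6]; apply C0_2p6.ch hS
  rw [eqs_sound _ _ e7]; apply C0_2p7.ch hS
  rw [eqs_sound _ _ e8]; apply C0_2p8.ch hS
  rw [eqs_sound _ _ e9]; apply C0_2p9.ch hS
  rw [eqs_sound _ _ ef]; trivial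
theorem ab {V : (Nat → Prop) → Prop} (hS : Sound F G0 H V) : ∀ a ∈ l0, Bad V a := mkS_bad (ab0 hS)

end Pool.Agent.W708.OC.S0.C0_2
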