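import Pool.Agent.W708.OC.C1_2p0
import Pool.Agent.W708.OC.C1_2p1
set_option autoImplicit false
set_option maxRecDepth 100000

namespace Pool.Agent.W708.OC.S1.C1_2
open Pool.Agent.W708.OC Pool.Agent.W708.OC.S1

noncomputable def l0 : List Nat := [(nat_lit 0xfffffeffffeffffffffffffffbeefffed6fdfffffffec7fdfebeffeedffdfffffefffeefee0eeece0100eeeeee001cc0feff0f0a0dd2ffffbedfee0effffffffef7effffebe0edfe715660766080880004010200eeccc2ee0001)]
theorem e0 : eqs (mkS l0) C1_2p0.s0 = true := by decide +kernel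
theorem e1 : eqs C1_2p0.se C1_2p1.s0 = true := by decide +kernel
theorem ef : eqs C1_2p1.se .nil = true := by decide +kernel
theorem ab0 {V : (Nat → Prop) → Prop} (hS : Sound F G0 H V) : AllBad V (mkS l0) := by
  rw [eqs_sound _ _ e0]; apply C1_2p0.ch hS
  rw [eqs_sound _ _ e1]; apply C1_2p1.ch hS
  rw [eqs_sound _ _ ef]; trivial
theorem ab {V : (Nat → Prop) → Prop} (hS : Sound F G0 H V) : ∀ a ∈ l0, Bad V a := mkS_bad (ab0 hS)

end Pool.Agent.W708.OC.S1.C1_2
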