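import Pool.Agent.W708.OC.C1_4p0
import Pool.Agent.W708.OC.C1_4p1
import Pool.Agent.W708.OC.C1_4p2
set_option autoImplicit false
set_option maxRecDepth 100000

namespace Pool.Agent.W708.OC.S1.C1_4
open Pool.Agent.W708.OC Pool.Agent.W708.OC.S1

noncomputable def l0 : List Nat := [(nat_lit 0xefffbeffffeffffffeffffefdfeffefffeeffffffffefffedeffefeebfffffffbcfffe0eee0eeccca100eeeeeeee0001aaa010004aa0ffeffcffe0ceffffffffeffefefe0e0caffefffdd2efeea0c0c020100c80eeeec0ee0001)]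
theorem e0 : eqs (mkS l0) C1_4p0.s0 = true := by decide +kernel
theorem e1 : eqs C1_4p0.se C1_4p1.s0 = true := by decide +kernel
theorem e2 : eqs C1_4p1.se C1_4p2.s0 = true := by decide +kernel
theorem ef : eqs C1_4p2.se .nil = true := by decide +kernel
theorem ab0 {V : (Nat → Prop) → Prop} (hS : Sound F G0 H V) : AllBad V (mkS l0) := by
  rw [eqs_sound _ _ e0]; apply C1_4p0.ch hS
  rw [eqs_sound _ _ e1]; apply C1_4p1.ch hS
  rw [eqs_sound _ _ e2]; apply C1_4p2.ch hS
  rw [eqs_sound _ _ ef]; trivial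
theorem ab {V : (Nat → Prop) → Prop} (hS : Sound F G0 H V) : ∀ a ∈ l0, Bad V a := mkS_bad (ab0 hS)

end Pool.Agent.W708.OC.S1.C1_4
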