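import Pool.Agent.W708.OC.T5
import Pool.Agent.W708.OC.C2_1p1
set_option autoImplicit false
set_option maxRecDepth 100000

namespace Pool.Agent.W708.OC.S5.C5_0
open Pool.Agent.W708.OC Pool.Agent.W708.OC.S5

noncomputable def l4 : List Nat := []
noncomputable def l3 : List Nat := (nat_lit 0xe100eee0ee010ee000eeee0eeee00010e0e0e010e000ee0e0eee00e100e00010e0eeee0eee0e0e0001eeeee000e0101000eee00e0e001e0eeee00ee00eeeeee100eeee0e01000e0e01000eeee01000e0e0eee00eee0e0e0001) :: l4
noncomputable def l2 : List Nat := (nat_lit 0xe01000eeeeee00001eeee0e0eeee00010e01000eee00e0eeeeee000e010001e0eeee00e0eee0e0e00010e0eee00e100e0e010e000eeee001000eeeee0eeee10000eeeee00eee0100e01000eeee01000e0e0eee0e0e0eee00001) :: l3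
noncomputable def l1 : List Nat := (nat_lit 0xe100ee00eee00001eeee0e0eeee00010e0001eeee0000e0eeee000e010010eee00eeee0eee0e0e0001ee001000eee01000eee00eeee00eee100e0eeeee000ee010eeee0e01000e0e01000eeee01000e0e0eee0e0eeeee00001) :: l2
noncomputable def l0 : List Nat := (nat_lit 0xe01000eeee0001eeeeee00e0eeee00010e01000eee00eeeee001000eee0e00010e0eeee0eee0e0e00010eeee000e010001eeee0000eeeee000ee010e0eeee10000ee00eeee0e1000e01000eeee01000e0e0eee0eeee0e0e0001) :: l1
noncomputable def s0 : Stk := mkS l0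
noncomputable def s1 : Stk := .nil
theorem t1 : chk [(nat_lit 0x2f1b17472b0f5766764a5e2e1a16462a0e566575495d2d191545290d558a5b774f6f1b2f174343136b5a764e6e1a2e164242126a59754d6d192d154141116987), (nat_lit 0x271f535b0f276f2b5266261e525a0e266e2a5165251d51590d256d29ad2b5b372b536713375f1f2a5a362a526612365e1e29593529516511355d1d9c67774b5f), (nat_lit 0x5367)] s0 s1 = true := by decide +kernel
theorem ab {V : (Nat → Prop) → Prop} (hS : Sound F G0 H V) : ∀ a ∈ l0, Bad V a :=
  mkS_bad (show AllBad V (mkS l0) from (chk_sound hS t1 trivial))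

end Pool.Agent.W708.OC.S5.C5_0
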