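import Pool.Agent.W708.OC.Rows
/-!
Checks of the item rows and of the key table.
-/
set_option autoImplicit false
set_option linter.unusedSimpArgs false
set_option maxRecDepth 100000

namespace Pool.Agent.W708.OC

noncomputable def anyB (f : Nat → Bool) (n : Nat) : Bool :=
  Nat.rec (motive := fun _ => Bool) false (fun i ih => Bool.rec (motive := fun _ => Bool) ih true (f i)) n

theorem anyB_iff {f : Nat → Bool} : ∀ {n : Nat}, anyB f n = true → ∃ i, i < n ∧ f i = true := by
  intro n
  induction n with
  | zero => intro h; exact Bool.noConfusion h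
  | succ n ih =>
    intro h
    have h1 : Bool.rec (motive := fun _ => Bool) (anyB f n) true (f n) = true := h
    cases hf : f n with
    | true => exact ⟨n, Nat.lt_succ_self n, hf⟩
    | false =>
      rw [hf] at h1
      obtain ⟨i, hi, h2⟩ := ih h1
      exact ⟨i, Nat.lt_succ_of_lt hi, h2⟩

/-- lazy conjunction -/
noncomputable def andB (a b : Bool) : Bool := Bool.rec (motive := fun _ => Bool) false b a

theorem andB_iff {a b : Bool} (h : andB a b = true) : a = true ∧ b = true := by
  cases a with
  | false => exact Bool.noConfusion h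
  | true => exact ⟨rfl, h⟩

/-- lazy implication -/
noncomputable def impB (a b : Bool) : Bool := Bool.rec (motive := fun _ => Bool) true b a

theorem impB_iff {a b : Bool} (h : impB a b = true) (ha : a = true) : b = true := by
  rw [ha] at h; exact h

noncomputable def keyc (c : Nat) : Nat := Nat.land (Nat.shiftRight KEYT (Nat.mul 12 c)) 4095
noncomputable def ka (c : Nat) : Nat := Nat.div (keyc c) 64
noncomputable def kb (c : Nat) : Nat := Nat.land (keyc c) 63

noncomputable def itm1 (f : Nat → Nat) (c : Nat) : Bool :=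
  andB (anyB (fun q => Nat.beq (f q) (ka c)) 180) (andB (Nat.ble (kb c) 3)
    (allB (fun q => impB (Nat.beq (f q) (ka c)) (tb (G0 c) (Nat.add (Nat.mul 4 q) (kb c)))) 180))

noncomputable def itm2 (f : Nat → Nat) (c : Nat) : Bool :=
  andB (anyB (fun q => andB (Nat.beq (f q) (ka c)) (Nat.beq (dT q) (kb c))) 180)
    (allB (fun q => impB (Nat.beq (f q) (ka c)) (impB (Nat.beq (dT q) (kb c))
      (allB (fun d => tb (G0 c) (Nat.add (Nat.mul 4 q) d)) 4))) 180)

theorem IA : allB (fun c => itm1 dX c) 60 = true := by decide +kernel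
theorem IB : allB (fun c => itm1 dY (Nat.add 60 c)) 60 = true := by decide +kernel
theorem IC : allB (fun c => itm2 dX (Nat.add 120 c)) 60 = true := by decide +kernel
theorem ID : allB (fun c => itm2 dY (Nat.add 180 c)) 60 = true := by decide +kernel

theorem G0_big {c : Nat} (hc : 240 ≤ c) : G0 c = 0 := by
  have h1 : Nat.shiftRight IT (Nat.mul 720 240) = 0 := by decide +kernel
  show IT >>> (720 * c) = 0
  have h2 : 720 * c = 720 * 240 + 720 * (c - 240) := by omega
  rw [h2, Nat.shiftRight_add]
  have h3 : IT >>> (720 * 240) = 0 := h1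
  rw [h3, Nat.zero_shiftRight]

noncomputable def keyk (k q d : Nat) : Nat :=
  Bool.rec (motive := fun _ => Nat)
   (Bool.rec (motive := fun _ => Nat)
    (Bool.rec (motive := fun _ => Nat)
     (Bool.rec (motive := fun _ => Nat)
      (Bool.rec (motive := fun _ => Nat)
        (Nat.add (Nat.mul 64 (dX q)) (dY q))
        (Nat.add (Nat.mul 64 (dT q)) d) (Nat.beq k 4))
      (Nat.add (Nat.mul 64 (dY q)) (dT q)) (Nat.beq k 3))
     (Nat.add (Nat.mul 64 (dX q)) (dT q)) (Nat.beq k 2))
    (Nat.add (Nat.mul 64 (dY q)) d) (Nat.beq k 1))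
   (Nat.add (Nat.mul 64 (dX q)) d) (Nat.beq k 0)

theorem KC : allB (fun q => allB (fun d => allB (fun k =>
    Nat.beq (keyc (idx k (Nat.add (Nat.mul 4 q) d))) (keyk k q d)) 6) 4) 180 = true := by decide +kernel

theorem key_eq {o k : Nat} (ho : o < 720) (hk : k < 6) : keyc (idx k o) = keyk k (o / 4) (o % 4) := by
  have h1 := allB_iff (allB_iff (allB_iff KC (o / 4) (by omega)) (o % 4) (by omega)) k hk
  have h2 : Nat.add (Nat.mul 4 (o / 4)) (o % 4) = o := by
    show 4 * (o / 4) + o % 4 = o
    omega
  have h3 := Nat.eq_of_beq_eq_true h1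
  rw [h2] at h3; exact h3

theorem and63 (m : Nat) : Nat.land m 63 < 64 := Nat.lt_of_le_of_lt (Nat.and_le_right (n := m) (m := 63)) (by decide)

theorem dX_lt (q : Nat) : dX q < 64 := and63 _
theorem dT_lt (q : Nat) : dT q < 64 := and63 _
theorem dY_lt (q : Nat) : dY q < 64 := and63 _

end Pool.Agent.W708.OC
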