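/-!
A small refutation machine for exact-cover style searches on bit masks, and its soundness.
`P : Nat → Prop` is a set of selected options, `V P` says that `P` is an admissible selection,
a mask `a` stands for the set of options that are still alive.
-/
set_option autoImplicit false
set_option linter.unusedSimpArgs false

namespace Pool.Agent.W708.OC

/-- Machine stack. -/
inductive Stk where
  | nil : Stk
  | fail : Stk
  | top (a : Nat) (s : Stk) : Stk
  | pend (a m : Nat) (s : Stk) : Stk

noncomputable def pushP (ap m' : Nat) (s : Stk) : Stk :=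
  Bool.rec (motive := fun _ => Stk) (.pend ap m' s) s (Nat.beq m' 0)

section
variable (F G : Nat → Nat) (H : Nat → Nat → Bool)

noncomputable def choose1 (ap m : Nat) (s : Stk) (m' : Nat) : Stk :=
  .top (Nat.land ap (F (Nat.xor m m'))) (pushP ap m' s)
noncomputable def choose (ap m : Nat) (s : Stk) : Stk := choose1 F ap m s (Nat.land m (Nat.sub m 1))
noncomputable def pop (s : Stk) : Stk :=
  Stk.rec (motive := fun _ => Stk) .nil .fail (fun a s' _ => .top a s') (fun ap m s' _ => choose F ap m s') s
noncomputable def dead (s : Stk) (b : Bool) : Stk := Bool.rec (motive := fun _ => Stk) .fail (pop F s) b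
noncomputable def item1 (c a : Nat) (s : Stk) (mm : Nat) : Stk :=
  Bool.rec (motive := fun _ => Stk) (choose F a mm s) (dead F s (H c a)) (Nat.beq mm 0)
noncomputable def step (c : Nat) (s : Stk) : Stk :=
  Stk.rec (motive := fun _ => Stk) .nil .fail
      (fun a s' _ => item1 F H c a s' (Nat.land a (G c)))
      (fun _ _ _ _ => .fail)
      s
end

/-! ### Semantics -/

/-- The selection `P` is inside the mask `a`. -/
def Sub (P : Nat → Prop) (a : Nat) : Prop := ∀ o, P o → a.testBit o = true

/-- No admissible selection is inside `a`. -/
def Bad (V : (Nat → Prop) → Prop) (a : Nat) : Prop := ∀ P, V P → Sub P a → False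

def BadC (V : (Nat → Prop) → Prop) (a o : Nat) : Prop := ∀ P, V P → P o → Sub P a → False

def AllBad (V : (Nat → Prop) → Prop) : Stk → Prop
  | .nil => True
  | .fail => False
  | .top a s => Bad V a ∧ AllBad V s
  | .pend a m s => (∀ o, m.testBit o = true → BadC V a o) ∧ AllBad V s

/-- What the tables have to satisfy. -/
structure Sound (F G : Nat → Nat) (H : Nat → Nat → Bool) (V : (Nat → Prop) → Prop) : Prop where
  item : ∀ P, V P → ∀ c, G c = 0 ∨ ∃ o, P o ∧ (G c).testBit o = true
  comp : ∀ P, V P → ∀ o p, P o → P p → (F (2 ^ o)).testBit p = true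
  known : ∀ P, V P → ∀ c a, G c = 0 → H c a = true → Sub P a → False

theorem land_pred_even (k : Nat) (hk : k ≠ 0) : (2 * k) &&& (2 * k - 1) = 2 * (k &&& (k - 1)) := by
  have h1 : 2 * k - 1 = 2 * (k - 1) + 1 := by omega
  apply Nat.eq_of_testBit_eq
  intro i
  rw [h1]
  cases i with
  | zero => simp [Nat.testBit_zero]
  | succ i =>
    rw [Nat.testBit_and, Nat.testBit_succ, Nat.testBit_succ, Nat.testBit_succ]
    have e1 : (2 * k) / 2 = k := by omega
    have e2 : (2 * (k - 1) + 1) / 2 = k - 1 := by omega
    have e3 : (2 * (k &&& (k - 1))) / 2 = k &&& (k - 1) := by omega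
    rw [e1, e2, e3, Nat.testBit_and]

theorem xor_even (k l : Nat) : (2 * k) ^^^ (2 * l) = 2 * (k ^^^ l) := by
  apply Nat.eq_of_testBit_eq
  intro i
  cases i with
  | zero => simp [Nat.testBit_zero]
  | succ i =>
    rw [Nat.testBit_xor, Nat.testBit_succ, Nat.testBit_succ, Nat.testBit_succ]
    have e1 : (2 * k) / 2 = k := by omega
    have e2 : (2 * l) / 2 = l := by omega
    have e3 : (2 * (k ^^^ l)) / 2 = k ^^^ l := by omega
    rw [e1, e2, e3, Nat.testBit_xor]

theorem low (m : Nat) : m ≠ 0 → ∃ o, m.testBit o = true ∧ (m ^^^ (m &&& (m - 1))) = 2 ^ o ∧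
    ∀ i, (m &&& (m - 1)).testBit i = (m.testBit i && !decide (i = o)) := by
  induction m using Nat.strongRecOn with
  | ind m ih =>
    intro h
    rcases Nat.mod_two_eq_zero_or_one m with h0 | h1
    · obtain ⟨k, hk⟩ : ∃ k, m = 2 * k := ⟨m / 2, by omega⟩
      have hk0 : k ≠ 0 := by omega
      obtain ⟨o, ho1, ho2, ho3⟩ := ih k (by omega) hk0
      refine ⟨o + 1, ?_, ?_, ?_⟩
      · rw [hk, Nat.testBit_succ]
        have e1 : (2 * k) / 2 = k := by omega
        rw [e1]; exact ho1
      · rw [hk, land_pred_even k hk0, xor_even, ho2, Nat.pow_succ]; omega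
      · intro i
        rw [hk, land_pred_even k hk0]
        cases i with
        | zero => simp [Nat.testBit_zero]
        | succ i =>
          have e1 : (2 * k) / 2 = k := by omega
          have e3 : (2 * (k &&& (k - 1))) / 2 = k &&& (k - 1) := by omega
          rw [Nat.testBit_succ, Nat.testBit_succ, e1, e3, ho3]
          simp
    · obtain ⟨k, hk⟩ : ∃ k, m = 2 * k + 1 := ⟨m / 2, by omega⟩
      have e0 : m - 1 = 2 * k := by omega
      have e4 : m &&& (m - 1) = 2 * k := by
        rw [e0, hk]
        apply Nat.eq_of_testBit_eq
        intro i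
        cases i with
        | zero => simp [Nat.testBit_zero]
        | succ i =>
          have e1 : (2 * k) / 2 = k := by omega
          have e2 : (2 * k + 1) / 2 = k := by omega
          rw [Nat.testBit_and, Nat.testBit_succ, Nat.testBit_succ, e1, e2, Bool.and_self]
      refine ⟨0, ?_, ?_, ?_⟩
      · rw [hk]; simp [Nat.testBit_zero]
      · rw [e4, hk]
        apply Nat.eq_of_testBit_eq
        intro i
        cases i with
        | zero => simp [Nat.testBit_zero]
        | succ i =>
          have e1 : (2 * k) / 2 = k := by omega
          have e2 : (2 * k + 1) / 2 = k := by omega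
          have e3 : (2 ^ 0) / 2 = 0 := by decide
          rw [Nat.testBit_xor, Nat.testBit_succ, Nat.testBit_succ, Nat.testBit_succ, e1, e2, e3, Bool.xor_self, Nat.zero_testBit]
      · intro i
        rw [e4, hk]
        cases i with
        | zero => simp [Nat.testBit_zero]
        | succ i =>
          have e1 : (2 * k) / 2 = k := by omega
          have e2 : (2 * k + 1) / 2 = k := by omega
          simp [Nat.testBit_succ, e1, e2]

section
variable {F G : Nat → Nat} {H : Nat → Nat → Bool} {V : (Nat → Prop) → Prop}

theorem sub_land {P : Nat → Prop} {a b : Nat} (ha : Sub P a) (hb : Sub P b) : Sub P (a &&& b) := by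
  intro o ho
  rw [Nat.testBit_and, ha o ho, hb o ho]; rfl

theorem choose_sound (hS : Sound F G H V) (ap m : Nat) (s : Stk) (hm : m ≠ 0)
    (h : AllBad V (choose F ap m s)) : (∀ o, m.testBit o = true → BadC V ap o) ∧ AllBad V s := by
  obtain ⟨o, ho1, ho2, ho3⟩ := low m hm
  have hx : Nat.xor m (Nat.land m (Nat.sub m 1)) = 2 ^ o := ho2
  have h1 : AllBad V (.top (Nat.land ap (F (2 ^ o))) (pushP ap (Nat.land m (Nat.sub m 1)) s)) := by
    rw [← hx]; exact h
  obtain ⟨h2, h3⟩ := h1
  have hBo : BadC V ap o := by
    intro P hP hPo hsub
    exact h2 P hP (sub_land hsub (fun p hp => hS.comp P hP o p hPo hp))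
  by_cases hz : (m &&& (m - 1)) = 0
  · have hb : Nat.beq (Nat.land m (Nat.sub m 1)) 0 = true := by
      rw [show Nat.land m (Nat.sub m 1) = 0 from hz]; rfl
    have h4 : AllBad V s := by
      have : pushP ap (Nat.land m (Nat.sub m 1)) s = s := by unfold pushP; rw [hb]
      rw [this] at h3; exact h3
    refine ⟨?_, h4⟩
    intro i hi
    have := ho3 i
    rw [hz, Nat.zero_testBit, hi] at this
    by_cases hio : i = o
    · rw [hio]; exact hBo
    · simp [hio] at this
  · have hb : Nat.beq (Nat.land m (Nat.sub m 1)) 0 = false := by
      cases hh : Nat.beq (Nat.land m (Nat.sub m 1)) 0 with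
      | false => rfl
      | true => exact absurd (Nat.eq_of_beq_eq_true hh) hz
    have h4 : AllBad V (.pend ap (Nat.land m (Nat.sub m 1)) s) := by
      have : pushP ap (Nat.land m (Nat.sub m 1)) s = .pend ap (Nat.land m (Nat.sub m 1)) s := by
        unfold pushP; rw [hb]
      rw [this] at h3; exact h3
    obtain ⟨h5, h6⟩ := h4
    refine ⟨?_, h6⟩
    intro i hi
    by_cases hio : i = o
    · rw [hio]; exact hBo
    · apply h5 i
      have := ho3 i
      rw [hi] at this
      show (m &&& (m - 1)).testBit i = true
      rw [this]; simp [hio]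

theorem pend_zero_or (hS : Sound F G H V) (ap m : Nat) (s : Stk)
    (h : AllBad V (choose F ap m s)) : (∀ o, m.testBit o = true → BadC V ap o) ∧ AllBad V s := by
  by_cases hm : m = 0
  · subst hm
    refine ⟨fun o ho => by simp at ho, ?_⟩
    have h1 : AllBad V (.top (Nat.land ap (F (Nat.xor 0 (Nat.land 0 (Nat.sub 0 1))))) (pushP ap (Nat.land 0 (Nat.sub 0 1)) s)) := h
    have h2 : pushP ap (Nat.land 0 (Nat.sub 0 1)) s = s := rfl
    rw [h2] at h1
    exact h1.2
  · exact choose_sound hS ap m s hm h

theorem pop_sound (hS : Sound F G H V) (s : Stk) (h : AllBad V (pop F s)) : AllBad V s := by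
  cases s with
  | nil => trivial
  | fail => exact h
  | top a s => exact h
  | pend a m s => exact pend_zero_or hS a m s h

theorem step_sound (hS : Sound F G H V) (c : Nat) (s : Stk) (h : AllBad V (step F G H c s)) : AllBad V s := by
  cases s with
  | nil => trivial
  | fail => exact h
  | pend a m s => exact absurd h (fun h => h)
  | top a s =>
    have h1 : AllBad V (item1 F H c a s (Nat.land a (G c))) := h
    by_cases hz : (a &&& G c) = 0
    · have hb : Nat.beq (Nat.land a (G c)) 0 = true := by
        rw [show Nat.land a (G c) = 0 from hz]; rfl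
      have h2 : AllBad V (dead F s (H c a)) := by
        have : item1 F H c a s (Nat.land a (G c)) = dead F s (H c a) := by unfold item1; rw [hb]
        rw [this] at h1; exact h1
      cases hH : H c a with
      | false => rw [hH] at h2; exact absurd h2 (fun h => h)
      | true =>
        rw [hH] at h2
        have h3 : AllBad V s := pop_sound hS s h2
        refine ⟨?_, h3⟩
        intro P hP hsub
        rcases hS.item P hP c with h4 | ⟨o, ho, hob⟩
        · exact hS.known P hP c a h4 hH hsub
        · have := hsub o ho
          have h5 : (a &&& G c).testBit o = true := by rw [Nat.testBit_and, this, hob]; rfl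
          rw [hz, Nat.zero_testBit] at h5
          exact absurd h5 (by simp)
    · have hb : Nat.beq (Nat.land a (G c)) 0 = false := by
        cases hh : Nat.beq (Nat.land a (G c)) 0 with
        | false => rfl
        | true => exact absurd (Nat.eq_of_beq_eq_true hh) hz
      have h2 : AllBad V (choose F a (Nat.land a (G c)) s) := by
        have : item1 F H c a s (Nat.land a (G c)) = choose F a (Nat.land a (G c)) s := by unfold item1; rw [hb]
        rw [this] at h1; exact h1
      obtain ⟨h3, h4⟩ := choose_sound hS a _ s hz h2
      refine ⟨?_, h4⟩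
      intro P hP hsub
      rcases hS.item P hP c with h5 | ⟨o, ho, hob⟩
      · exact absurd (show (a &&& G c) = 0 by rw [h5]; simp) hz
      · have h6 : (a &&& G c).testBit o = true := by rw [Nat.testBit_and, hsub o ho, hob]; rfl
        exact h3 o h6 P hP ho hsub

end

/-! ### Equality of stacks -/

noncomputable def eqs (s : Stk) : Stk → Bool :=
  Stk.rec (motive := fun _ => Stk → Bool)
   (fun t => Stk.rec (motive := fun _ => Bool) true false (fun _ _ _ => false) (fun _ _ _ _ => false) t)
   (fun _ => false)
   (fun a _ ih t => Stk.rec (motive := fun _ => Bool) false false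
     (fun b t' _ => Bool.rec (motive := fun _ => Bool) false (ih t') (Nat.beq a b)) (fun _ _ _ _ => false) t)
   (fun a m _ ih t => Stk.rec (motive := fun _ => Bool) false false (fun _ _ _ => false)
     (fun b m' t' _ => Bool.rec (motive := fun _ => Bool) false
       (Bool.rec (motive := fun _ => Bool) false (ih t') (Nat.beq m m')) (Nat.beq a b)) t) s

theorem eqs_sound : ∀ s t : Stk, eqs s t = true → s = t := by
  intro s
  induction s with
  | nil => intro t h; cases t with
    | nil => rfl
    | fail => exact absurd h (by decide)
    | top a s => exact absurd h (by intro h; cases h)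
    | pend a m s => exact absurd h (by intro h; cases h)
  | fail => intro t h; exact absurd h (by intro h; cases h)
  | top a s ih =>
    intro t h
    cases t with
    | nil => exact absurd h (by intro h; cases h)
    | fail => exact absurd h (by intro h; cases h)
    | pend _ _ _ => exact absurd h (by intro h; cases h)
    | top b t =>
      have h1 : Bool.rec (motive := fun _ => Bool) false (eqs s t) (Nat.beq a b) = true := h
      cases hh : Nat.beq a b with
      | false => rw [hh] at h1; exact absurd h1 (by intro h; cases h)
      | true =>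
        rw [hh] at h1
        rw [ih t h1, Nat.eq_of_beq_eq_true hh]
  | pend a m s ih =>
    intro t h
    cases t with
    | nil => exact absurd h (by intro h; cases h)
    | fail => exact absurd h (by intro h; cases h)
    | top _ _ => exact absurd h (by intro h; cases h)
    | pend b m' t =>
      have h1 : Bool.rec (motive := fun _ => Bool) false
       (Bool.rec (motive := fun _ => Bool) false (eqs s t) (Nat.beq m m')) (Nat.beq a b) = true := h
      cases hh : Nat.beq a b with
      | false => rw [hh] at h1; exact absurd h1 (by intro h; cases h)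
      | true =>
        cases hm : Nat.beq m m' with
        | false => rw [hh, hm] at h1; exact absurd h1 (by intro h; cases h)
        | true =>
          rw [hh, hm] at h1
          rw [ih t h1, Nat.eq_of_beq_eq_true hh, Nat.eq_of_beq_eq_true hm]

end Pool.Agent.W708.OC
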