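import Pool.Agent.W708.OC.ERows
/-!
Verification of the key rows of the long options.
-/
set_option autoImplicit false
set_option linter.unusedSimpArgs false
set_option maxRecDepth 100000

namespace Pool.Agent.W708.OC

theorem PE0 : allB (fun i => P1E (Nat.add 0 i)) 240 = true := by decide +kernel
theorem PE1 : allB (fun i => P1E (Nat.add 240 i)) 240 = true := by decide +kernel
theorem PE2 : allB (fun i => P1E (Nat.add 480 i)) 240 = true := by decide +kernel
theorem PE3 : allB (fun i => P1E (Nat.add 720 i)) 240 = true := by decide +kernel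
theorem PE4 : allB (fun i => P1E (Nat.add 960 i)) 240 = true := by decide +kernel
theorem PE5 : allB (fun i => P1E (Nat.add 1200 i)) 240 = true := by decide +kernel
theorem PE6 : allB (fun i => P1E (Nat.add 1440 i)) 240 = true := by decide +kernel
theorem PE7 : allB (fun i => P1E (Nat.add 1680 i)) 240 = true := by decide +kernel
theorem PE8 : allB (fun i => P1E (Nat.add 1920 i)) 240 = true := by decide +kernel
theorem PE9 : allB (fun i => P1E (Nat.add 2160 i)) 240 = true := by decide +kernel
theorem PE10 : allB (fun i => P1E (Nat.add 2400 i)) 240 = true := by decide +kernel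
theorem PE11 : allB (fun i => P1E (Nat.add 2640 i)) 240 = true := by decide +kernel

theorem pieces12 {f : Nat → Bool}
    (h0 : allB (fun i => f (Nat.add 0 i)) 240 = true)
    (h1 : allB (fun i => f (Nat.add 240 i)) 240 = true)
    (h2 : allB (fun i => f (Nat.add 480 i)) 240 = true)
    (h3 : allB (fun i => f (Nat.add 720 i)) 240 = true)
    (h4 : allB (fun i => f (Nat.add 960 i)) 240 = true)
    (h5 : allB (fun i => f (Nat.add 1200 i)) 240 = true)
    (h6 : allB (fun i => f (Nat.add 1440 i)) 240 = true)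
    (h7 : allB (fun i => f (Nat.add 1680 i)) 240 = true)
    (h8 : allB (fun i => f (Nat.add 1920 i)) 240 = true)
    (h9 : allB (fun i => f (Nat.add 2160 i)) 240 = true)
    (h10 : allB (fun i => f (Nat.add 2400 i)) 240 = true)
    (h11 : allB (fun i => f (Nat.add 2640 i)) 240 = true)
    : ∀ l, l < 2880 → f l = true := by
  intro l hl
  have key : ∀ j, j ≤ l → l < j + 240 → allB (fun i => f (Nat.add j i)) 240 = true → f l = true := by
    intro j h1 h2 h3
    have h4 := allB_iff h3 (l - j) (by omega)
    have e : Nat.add j (l - j) = l := by show j + (l - j) = l; omega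
    rw [e] at h4; exact h4
  by_cases c0 : l < 240
  · exact key 0 (by omega) (by omega) h0
  by_cases c1 : l < 480
  · exact key 240 (by omega) (by omega) h1
  by_cases c2 : l < 720
  · exact key 480 (by omega) (by omega) h2
  by_cases c3 : l < 960
  · exact key 720 (by omega) (by omega) h3
  by_cases c4 : l < 1200
  · exact key 960 (by omega) (by omega) h4
  by_cases c5 : l < 1440
  · exact key 1200 (by omega) (by omega) h5
  by_cases c6 : l < 1680
  · exact key 1440 (by omega) (by omega) h6
  by_cases c7 : l < 1920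
  · exact key 1680 (by omega) (by omega) h7
  by_cases c8 : l < 2160
  · exact key 1920 (by omega) (by omega) h8
  by_cases c9 : l < 2400
  · exact key 2160 (by omega) (by omega) h9
  by_cases c10 : l < 2640
  · exact key 2400 (by omega) (by omega) h10
  exact key 2640 (by omega) (by omega) h11

theorem PE {l : Nat} (hl : l < 2880) : P1E l = true :=
  pieces12 PE0 PE1 PE2 PE3 PE4 PE5 PE6 PE7 PE8 PE9 PE10 PE11 l hl

theorem DEa : allB DE 10 = true := by decide +kernel

theorem idxE_spec {l k : Nat} (hl : l < 2880) (hk : k < 10) :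
    (rwE k (idxE k l)).testBit l = true ∧ idxE k l < KN k ∧
      keyE k (idxE k l) = 64 * cmpE (kk1 k) l + cmpE (kk2 k) l := by
  obtain ⟨h1, h2⟩ := andB_iff (allB_iff (PE hl) k hk)
  obtain ⟨h2, h3⟩ := andB_iff h2
  refine ⟨?_, ble_le h2, Nat.eq_of_beq_eq_true h3⟩
  rw [← tb_eq]; exact h1

theorem rwE_spec {l m k : Nat} (hl : l < 2880) (hm : m < 2880) (hk : k < 10)
    (h : (rwE k (idxE k l)).testBit m = true) : idxE k m = idxE k l := by
  obtain ⟨_, h2, _⟩ := idxE_spec hl hk
  obtain ⟨h4, h5, _⟩ := idxE_spec hm hk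
  exact disjB_eq (allB_iff DEa k hk) h5 h2 h4 h

theorem cmE_spec {l m : Nat} (hl : l < 2880) (hm : m < 2880) (h : (cmE l).testBit m = true) :
    ∃ k, k < 10 ∧ idxE k m = idxE k l := by
  obtain ⟨k, hk, h1⟩ := accOr_of_bit h
  exact ⟨k, hk, rwE_spec hl hm hk h1⟩

theorem FULLE_bit {p : Nat} (hp : p < 2880) : FULLE.testBit p = true := by
  have h : FULLE = 2 ^ 2880 - 1 := by
    show Nat.shiftLeft 1 2880 - 1 = 2 ^ 2880 - 1
    have : Nat.shiftLeft 1 2880 = 2 ^ 2880 := by
      show 1 <<< 2880 = 2 ^ 2880
      rw [Nat.shiftLeft_eq, Nat.one_mul]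
    rw [this]
  rw [h, Nat.testBit_two_pow_sub_one]; exact decide_eq_true hp

noncomputable def chkE (F : Nat → Nat) (l : Nat) : Bool :=
  andB (tb (F (Nat.shiftLeft 1 l)) l)
    (Nat.beq (Nat.lor (Nat.land (F (Nat.shiftLeft 1 l)) FULLE) (cmE l)) FULLE)

theorem chkE_comp {F : Nat → Nat} {l m : Nat} (hl : l < 2880) (hm : m < 2880) (h : chkE F l = true)
    (hc : l ≠ m → ∀ k, k < 10 → idxE k m ≠ idxE k l) : (F (2 ^ l)).testBit m = true := by
  obtain ⟨h1, h2⟩ := andB_iff h
  rw [tb_eq, shl_one] at h1
  by_cases hlm : l = m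
  · rw [← hlm]; exact h1
  · have h2 : (((F (Nat.shiftLeft 1 l)) &&& FULLE) ||| (cmE l)) = FULLE := Nat.eq_of_beq_eq_true h2
    have h3 : (((F (Nat.shiftLeft 1 l)) &&& FULLE) ||| (cmE l)).testBit m = true := by rw [h2]; exact FULLE_bit hm
    rw [Nat.testBit_or, Nat.testBit_and, shl_one] at h3
    cases h4 : (F (2 ^ l)).testBit m with
    | true => rfl
    | false =>
      rw [h4] at h3
      have h5 : (cmE l).testBit m = true := by simpa using h3
      obtain ⟨k, hk, h6⟩ := cmE_spec hl hm h5
      exact absurd h6 (hc hlm k hk)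

end Pool.Agent.W708.OC
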