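import Pool.Agent.W708.OC.ETChk
import Pool.Agent.W708.OC.Cls
import Pool.Agent.W708.OC.X0
import Pool.Agent.W708.OC.X1
import Pool.Agent.W708.OC.X2
import Pool.Agent.W708.OC.X3
import Pool.Agent.W708.OC.X4
import Pool.Agent.W708.OC.X5
import Pool.Agent.W708.OC.X6
import Pool.Agent.W708.OC.X7
import Pool.Agent.W708.OC.X8
/-!
The 150 classes of complete selections of the middle levels, and their refutation at the level of long options.
-/
set_option autoImplicit false
set_option maxRecDepth 100000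

namespace Pool.Agent.W708.OC

theorem okX0 : zipC spr clX0_0 SE.X0.l0 = true := by decide +kernel
theorem okX1 : zipC spr clX1_0 SE.X1.l0 = true := by decide +kernel
theorem okX2 : zipC spr clX2_0 SE.X2.l0 = true := by decide +kernel
theorem okX3 : zipC spr clX3_0 SE.X3.l0 = true := by decide +kernel
theorem okX4 : zipC spr clX4_0 SE.X4.l0 = true := by decide +kernel
theorem okX5 : zipC spr clX5_0 SE.X5.l0 = true := by decide +kernel
theorem okX6 : zipC spr clX6_0 SE.X6.l0 = true := by decide +kernel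
theorem okX7 : zipC spr clX7_0 SE.X7.l0 = true := by decide +kernel
theorem okX8 : zipC spr clX8_0 SE.X8.l0 = true := by decide +kernel

theorem CL_bad {V : (Nat → Prop) → Prop} (hS : Sound SE.F SE.G SE.H V) :
    ∀ m ∈ CL, ∃ a, spr m a = true ∧ Bad V a := by
  intro m hm
  unfold CL at hm
  simp only [List.mem_append] at hm
  rcases hm with h | h | h | h | h | h | h | h | h
  · obtain ⟨a, ha, h2⟩ := zipC_mem okX0 m h
    exact ⟨a, h2, SE.X0.ab hS a ha⟩
  · obtain ⟨a, ha, h2⟩ := zipC_mem okX1 m h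
    exact ⟨a, h2, SE.X1.ab hS a ha⟩
  · obtain ⟨a, ha, h2⟩ := zipC_mem okX2 m h
    exact ⟨a, h2, SE.X2.ab hS a ha⟩
  · obtain ⟨a, ha, h2⟩ := zipC_mem okX3 m h
    exact ⟨a, h2, SE.X3.ab hS a ha⟩
  · obtain ⟨a, ha, h2⟩ := zipC_mem okX4 m h
    exact ⟨a, h2, SE.X4.ab hS a ha⟩
  · obtain ⟨a, ha, h2⟩ := zipC_mem okX5 m h
    exact ⟨a, h2, SE.X5.ab hS a ha⟩
  · obtain ⟨a, ha, h2⟩ := zipC_mem okX6 m h
    exact ⟨a, h2, SE.X6.ab hS a ha⟩
  · obtain ⟨a, ha, h2⟩ := zipC_mem okX7 m h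
    exact ⟨a, h2, SE.X7.ab hS a ha⟩
  · obtain ⟨a, ha, h2⟩ := zipC_mem okX8 m h
    exact ⟨a, h2, SE.X8.ab hS a ha⟩

end Pool.Agent.W708.OC
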