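import Pool.Agent.W708.OC.Glue
import Pool.Agent.W708.OC.EX
import Pool.Agent.W288.SC.LongOpt
/-!
No admissible selection of the middle levels lies inside one of the 150 classes.
-/
set_option autoImplicit false

namespace Pool.Agent.W708.OC

/-- selections of long options coming from a good family -/
def VE (Q : Nat → Prop) : Prop := ∃ R, Good R ∧ ∀ l, Q l ↔ QR R l

theorem VE_adm {Q : Nat → Prop} (h : VE Q) : AdmE Q := by
  obtain ⟨R, hR, hP⟩ := h
  have h1 := Pool.Agent.W288.SC.admE_of_good R hR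
  have h2 : Q = QR R := funext (fun o => propext (hP o))
  rw [h2]; exact h1

theorem eA_lt (q : Nat) : eA q < 64 := and63 _
theorem eF_lt (q : Nat) : eF q < 64 := and63 _

theorem cmp_lt (j l : Nat) : cmpE j l < 64 := by
  unfold cmpE
  cases Nat.beq j 0 <;> cases Nat.beq j 1 <;> cases Nat.beq j 2 <;> cases Nat.beq j 3 <;> cases Nat.beq j 4 <;>
    first
      | exact eA_lt _
      | exact dX_lt _
      | exact dT_lt _
      | exact dY_lt _
      | exact eF_lt _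
      | (exact Nat.lt_of_lt_of_le (Nat.mod_lt _ (by decide)) (by decide))

theorem VE_conf {Q : Nat → Prop} (hQ : VE Q) {l m : Nat} (hl : Q l) (hm : Q m) (hne : l ≠ m) (k : Nat) (hk : k < 10) :
    idxE k m ≠ idxE k l := by
  have hA := VE_adm hQ
  have hl' := hA.lt l hl
  have hm' := hA.lt m hm
  intro h
  have h1 : 64 * cmpE (kk1 k) m + cmpE (kk2 k) m = 64 * cmpE (kk1 k) l + cmpE (kk2 k) l := by
    rw [← (idxE_spec hl' hk).2.2, ← (idxE_spec hm' hk).2.2, h]
  obtain ⟨h3, h4⟩ := split64 (cmp_lt _ _) (cmp_lt _ _) h1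
  have hcase : k = 0 ∨ k = 1 ∨ k = 2 ∨ k = 3 ∨ k = 4 ∨ k = 5 ∨ k = 6 ∨ k = 7 ∨ k = 8 ∨ k = 9 := by omega
  rcases hcase with rfl | rfl | rfl | rfl | rfl | rfl | rfl | rfl | rfl | rfl
  · exact hA.cD l m hl hm hne ⟨h4.symm, Or.inl h3.symm⟩
  · exact hA.cD l m hl hm hne ⟨h4.symm, Or.inr (Or.inl h3.symm)⟩
  · exact hA.cD l m hl hm hne ⟨h4.symm, Or.inr (Or.inr h3.symm)⟩
  · exact hA.cA l m hl hm hne ⟨h3.symm, Or.inl h4.symm⟩
  · exact hA.cA l m hl hm hne ⟨h3.symm, Or.inr (Or.inl h4.symm)⟩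
  · exact hA.cA l m hl hm hne ⟨h3.symm, Or.inr (Or.inr (Or.inl h4.symm))⟩
  · exact hA.cA l m hl hm hne ⟨h3.symm, Or.inr (Or.inr (Or.inr h4.symm))⟩
  · exact hA.cF l m hl hm hne ⟨h4.symm, Or.inl h3.symm⟩
  · exact hA.cF l m hl hm hne ⟨h4.symm, Or.inr (Or.inl h3.symm)⟩
  · exact hA.cF l m hl hm hne ⟨h4.symm, Or.inr (Or.inr h3.symm)⟩

theorem VE_item {Q : Nat → Prop} (hQ : VE Q) (c : Nat) : (48 ≤ c ∧ SE.G c = 0) ∨ ∃ l, Q l ∧ (SE.G c).testBit l = true := by
  have hA := VE_adm hQ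
  by_cases h48 : 48 ≤ c
  · left; exact ⟨h48, GE_big h48⟩
  right
  by_cases h24 : c < 24
  · obtain ⟨l, hl, h1, h2⟩ := hA.iA (c / 4) (by omega) (c % 4) (by omega)
    obtain ⟨h3, h4⟩ := andB_iff (IEa (hA.lt l hl))
    obtain ⟨h4, _⟩ := andB_iff h4
    obtain ⟨h5, h6⟩ := andB_iff h4
    obtain ⟨h3, _⟩ := andB_iff h3
    have e1 : eA l = 2 ^ (idxE 0 l / 4) := by rw [← shl_one]; exact Nat.eq_of_beq_eq_true h5
    have e2 : (l / 4) % 4 = idxE 0 l % 4 := Nat.eq_of_beq_eq_true h6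
    have e3 : c / 4 = idxE 0 l / 4 := by
      rw [h1] at e1; exact Nat.pow_right_injective (le_refl 2) e1
    have e4 : idxE 0 l = c := by omega
    refine ⟨l, hl, ?_⟩
    rw [← tb_eq, ← e4]; exact h3
  · obtain ⟨l, hl, h1, h2⟩ := hA.iF ((c - 24) / 4) (by omega) (c % 4) (by omega)
    obtain ⟨h3, h4⟩ := andB_iff (IEa (hA.lt l hl))
    obtain ⟨_, h4⟩ := andB_iff h4
    obtain ⟨h5, h6⟩ := andB_iff h4
    obtain ⟨_, h3⟩ := andB_iff h3
    have e1 : eF l = 63 - 2 ^ (idxE 1 l / 4) := by rw [← shl_one]; exact Nat.eq_of_beq_eq_true h5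
    have e2 : (l / 4) % 4 = idxE 1 l % 4 := Nat.eq_of_beq_eq_true h6
    have hk := (idxE_spec (hA.lt l hl) (k := 1) (by decide)).2.1
    have hk' : idxE 1 l < 24 := hk
    have e3 : (c - 24) / 4 = idxE 1 l / 4 := by
      rw [h1] at e1
      have ha : (c - 24) / 4 < 6 := by omega
      have hb : idxE 1 l / 4 < 6 := by omega
      generalize (c - 24) / 4 = x at *
      generalize idxE 1 l / 4 = y at *
      interval_cases x <;> interval_cases y <;> simp_all
    have e4 : 24 + idxE 1 l = c := by omega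
    refine ⟨l, hl, ?_⟩
    have h3' : tb (SE.G (24 + idxE 1 l)) l = true := h3
    rw [e4, tb_eq] at h3'
    exact h3'

theorem SE_sound : Sound SE.F SE.G SE.H VE where
  item := fun P hP c => by
    rcases VE_item hP c with h | h
    · exact Or.inl h.2
    · exact Or.inr h
  comp := fun P hP l m hl hm =>
    chkE_comp ((VE_adm hP).lt l hl) ((VE_adm hP).lt m hm) (CEa ((VE_adm hP).lt l hl))
      (fun hne k hk => VE_conf hP hl hm hne k hk)
  known := fun P hP c a hG hH _ => by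
    rcases VE_item hP c with h | ⟨l, hl, h⟩
    · have : c ≤ 47 := ble_le hH
      omega
    · rw [hG] at h; simp at h

theorem CL_ref : ∀ m ∈ CL, ∀ P, V P → Sub P m → False := by
  intro m hm P hP hsub
  obtain ⟨a, ha, hbad⟩ := CL_bad SE_sound m hm
  obtain ⟨R, hR, hPR⟩ := hP
  refine hbad (QR R) ⟨R, hR, fun l => Iff.rfl⟩ ?_
  intro l hl
  have h1 : P (l / 4) := (hPR _).2 hl.1
  have h2 := hl.1.1
  have h3 := spr_spec ha (o := l / 4) (v := l % 4) h2 (by omega) (hsub _ h1)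
  have e : 4 * (l / 4) + l % 4 = l := by omega
  rw [e] at h3; exact h3

end Pool.Agent.W708.OC
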