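import Pool.Agent.W708.OC.EChk
import Pool.Agent.W708.OC.TE
/-!
Verification of the tables of the machine for long options.
-/
set_option autoImplicit false
set_option maxRecDepth 100000

namespace Pool.Agent.W708.OC

theorem CE0 : allB (fun i => chkE SE.F (Nat.add 0 i)) 240 = true := by decide +kernel
theorem CE1 : allB (fun i => chkE SE.F (Nat.add 240 i)) 240 = true := by decide +kernel
theorem CE2 : allB (fun i => chkE SE.F (Nat.add 480 i)) 240 = true := by decide +kernel
theorem CE3 : allB (fun i => chkE SE.F (Nat.add 720 i)) 240 = true := by decide +kernel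
theorem CE4 : allB (fun i => chkE SE.F (Nat.add 960 i)) 240 = true := by decide +kernel
theorem CE5 : allB (fun i => chkE SE.F (Nat.add 1200 i)) 240 = true := by decide +kernel
theorem CE6 : allB (fun i => chkE SE.F (Nat.add 1440 i)) 240 = true := by decide +kernel
theorem CE7 : allB (fun i => chkE SE.F (Nat.add 1680 i)) 240 = true := by decide +kernel
theorem CE8 : allB (fun i => chkE SE.F (Nat.add 1920 i)) 240 = true := by decide +kernel
theorem CE9 : allB (fun i => chkE SE.F (Nat.add 2160 i)) 240 = true := by decide +kernel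
theorem CE10 : allB (fun i => chkE SE.F (Nat.add 2400 i)) 240 = true := by decide +kernel
theorem CE11 : allB (fun i => chkE SE.F (Nat.add 2640 i)) 240 = true := by decide +kernel

theorem CEa {l : Nat} (hl : l < 2880) : chkE SE.F l = true :=
  pieces12 CE0 CE1 CE2 CE3 CE4 CE5 CE6 CE7 CE8 CE9 CE10 CE11 l hl

noncomputable def itE (l : Nat) : Bool :=
  andB (andB (tb (SE.G (idxE 0 l)) l) (tb (SE.G (Nat.add 24 (idxE 1 l))) l))
    (andB (andB (Nat.beq (eA l) (Nat.shiftLeft 1 (Nat.div (idxE 0 l) 4))) (Nat.beq (Nat.mod (Nat.div l 4) 4) (Nat.mod (idxE 0 l) 4)))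
      (andB (Nat.beq (eF l) (Nat.sub 63 (Nat.shiftLeft 1 (Nat.div (idxE 1 l) 4)))) (Nat.beq (Nat.mod (Nat.div l 4) 4) (Nat.mod (idxE 1 l) 4))))

theorem IE0 : allB (fun i => itE (Nat.add 0 i)) 240 = true := by decide +kernel
theorem IE1 : allB (fun i => itE (Nat.add 240 i)) 240 = true := by decide +kernel
theorem IE2 : allB (fun i => itE (Nat.add 480 i)) 240 = true := by decide +kernel
theorem IE3 : allB (fun i => itE (Nat.add 720 i)) 240 = true := by decide +kernel
theorem IE4 : allB (fun i => itE (Nat.add 960 i)) 240 = true := by decide +kernel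
theorem IE5 : allB (fun i => itE (Nat.add 1200 i)) 240 = true := by decide +kernel
theorem IE6 : allB (fun i => itE (Nat.add 1440 i)) 240 = true := by decide +kernel
theorem IE7 : allB (fun i => itE (Nat.add 1680 i)) 240 = true := by decide +kernel
theorem IE8 : allB (fun i => itE (Nat.add 1920 i)) 240 = true := by decide +kernel
theorem IE9 : allB (fun i => itE (Nat.add 2160 i)) 240 = true := by decide +kernel
theorem IE10 : allB (fun i => itE (Nat.add 2400 i)) 240 = true := by decide +kernel
theorem IE11 : allB (fun i => itE (Nat.add 2640 i)) 240 = true := by decide +kernel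

theorem IEa {l : Nat} (hl : l < 2880) : itE l = true :=
  pieces12 IE0 IE1 IE2 IE3 IE4 IE5 IE6 IE7 IE8 IE9 IE10 IE11 l hl

theorem GE_big {c : Nat} (hc : 48 ≤ c) : SE.G c = 0 := by
  have h1 : Nat.shiftRight SE.IT (Nat.mul 2880 48) = 0 := by decide +kernel
  show SE.IT >>> (2880 * c) = 0
  have h2 : 2880 * c = 2880 * 48 + 2880 * (c - 48) := by omega
  rw [h2, Nat.shiftRight_add]
  have h3 : SE.IT >>> (2880 * 48) = 0 := h1
  rw [h3, Nat.zero_shiftRight]

/-- the spread of the mask `m` is inside `a` -/
noncomputable def spr (m a : Nat) : Bool :=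
  allB (fun o => impB (tb m o) (Nat.beq (Nat.land (Nat.shiftRight a (Nat.mul 4 o)) 15) 15)) 720

noncomputable def zipC (f : Nat → Nat → Bool) (l : List Nat) : List Nat → Bool :=
  List.rec (motive := fun _ => List Nat → Bool) (fun _ => true)
    (fun m _ ih l' => List.rec (motive := fun _ => Bool) false (fun a t _ => andB (f m a) (ih t)) l') l

theorem zipC_mem {f : Nat → Nat → Bool} : ∀ {l l' : List Nat}, zipC f l l' = true → ∀ m ∈ l, ∃ a ∈ l', f m a = true := by
  intro l
  induction l with
  | nil => intro l' _ m hm; exact absurd hm (by simp)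
  | cons b l ih =>
    intro l' h m hm
    cases l' with
    | nil => exact Bool.noConfusion h
    | cons a t =>
      have h1 : andB (f b a) (zipC f l t) = true := h
      obtain ⟨h2, h3⟩ := andB_iff h1
      rcases List.mem_cons.1 hm with h4 | h4
      · exact ⟨a, List.mem_cons_self, by rw [h4]; exact h2⟩
      · obtain ⟨x, hx, h5⟩ := ih h3 m h4
        exact ⟨x, List.mem_cons_of_mem _ hx, h5⟩

theorem spr_spec {m a : Nat} (h : spr m a = true) {o v : Nat} (ho : o < 720) (hv : v < 4) (hb : m.testBit o = true) :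
    a.testBit (4 * o + v) = true := by
  have h1 := impB_iff (allB_iff h o ho) (by rw [tb_eq]; exact hb)
  have h2 : (a >>> (4 * o)) &&& 15 = 15 := Nat.eq_of_beq_eq_true h1
  have h3 : ((a >>> (4 * o)) &&& 15).testBit v = true := by
    rw [h2]
    have : v = 0 ∨ v = 1 ∨ v = 2 ∨ v = 3 := by omega
    rcases this with rfl | rfl | rfl | rfl <;> decide
  rw [Nat.testBit_and, Nat.testBit_shiftRight] at h3
  exact (Bool.and_eq_true _ _ ▸ h3).1

end Pool.Agent.W708.OC
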