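/-!
Decoding of the long options `l = 4 * o + v`: a chain `A ⊂ X ⊂ T ⊂ Y ⊂ F` (sizes 1 to 5) extending
the option `o`.
-/
set_option autoImplicit false

namespace Pool.Agent.W708.OC

def EDECp0 : Nat := 0xdd0dc2f90f827d07c2f90f827d07c2dd0dc2dd0dc2ed0ec27d07c2ed0ec27d07c2dd0dc2ed0ec1f50f41dd0dc1f50f41dd0dc1ed0ec1ed0ec1f50f417d07c1f50f417d07c1ed0ec1dd0dc1f50f417d07c1f50f417d07c1dd0dc1dd0dc1ed0ec17d07c1ed0ec17d07c1dd0dc1f48f44f88f84bc8bc4f88f84bc8bc4f48f44f48f44f88f847c87c4f88f847c87c4f48f44bc8bc4f88f847c87c4f88f847c87c4bc8bc4bc8bc4f48f447c87c4f48f447c87c4bc8bc4ec8ec2f88f82bc8bc2f88f82bc8bc2ec8ec2ec8ec2f88f827c87c2f88f827c87c2ec8ec2bc8bc2f88f827c87c2f88f827c87c2bc8bc2bc8bc2ec8ec27c87c2ec8ec27c87c2bc8bc2ec8ec1f48f41bc8bc1f48f41bc8bc1ec8ec1ec8ec1f48f417c87c1f48f417c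87c1ec8ec1bc8bc1f48f417c87c1f48f417c87c1bc8bc1bc8bc1ec8ec17c87c1ec8ec17c87c1bc8bc1dc4dc2f84f82bc4bc2f84f82bc4bc2dc4dc2dc4dc2f84f827c47c2f84f827c47c2dc4dc2bc4bc2f84f827c47c2f84f827c47c2bc4bc2bc4bc2dc4dc27c47c2dc4dc27c47c2bc4bc2dc4dc1f44f41bc4bc1f44f41bc4bc1dc4dc1dc4dc1f44f417c47c1f44f417c47c1dc4dc1bc4bc1f44f417c47c1f44f417c47c1bc4bc1bc4bc1dc4dc17c47c1dc4dc17c47c1bc4bc1dc2dc1ec2ec1bc2bc1ec2ec1bc2bc1dc2dc1dc2dc1ec2ec17c27c1ec2ec17c27c1dc2dc1bc2bc1ec2ec17c27c1ec2ec17c27c1bc2bc1bc2bc1dc2dc17c27c1dc2dc17c27c1bc2bc1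
def EDECp1 : Nat := 0xf60f50fa0f90ee0ed0fa0f90ee0ed0f60f50f60f50fa0f90de0dd0fa0f90de0dd0f60f50ee0ed0fa0f90de0dd0fa0f90de0dd0ee0ed0ee0ed0f60f50de0dd0f60f50de0dd0ee0ed0f60f48fa0f88ee0ec8fa0f88ee0ec8f60f48f60f48fa0f88be0bc8fa0f88be0bc8f60f48ee0ec8fa0f88be0bc8fa0f88be0bc8ee0ec8ee0ec8f60f48be0bc8f60f48be0bc8ee0ec8f60f44fa0f84de0dc4fa0f84de0dc4f60f44f60f44fa0f84be0bc4fa0f84be0bc4f60f44de0dc4fa0f84be0bc4fa0f84be0bc4de0dc4de0dc4f60f44be0bc4f60f44be0bc4de0dc4ee0ec2fa0f82de0dc2fa0f82de0dc2ee0ec2ee0ec2fa0f82be0bc2fa0f82be0bc2ee0ec2de0dc2fa0f82be0bc2fa0f82be0bc2de0dc2de0dc2ee0ec2be0bc2ee0ec2be0bc2de0dc2ee0ec1f60f41de0dc1f60f41de0dc1ee0ec1ee0ec1f60f41be0bc1f60f41be0bc1ee0ec1de0dc1f60f41be0bc1f60f41be0bc1de0dc1de0dc1ee0ec1be0bc1ee0ec1be0bc1de0dc1f50f48f90f88ed0ec8f90f88ed0ec8f50f48f50f48f90f887d07c8f90f887d07c8f50f48ed0ec8f90f887d07c8f90f887d07c8ed0ec8ed0ec8f50f487d07c8f50f487d07c8ed0ec8f50f44f90f84dd0dc4f90f84dd0dc4f50f44f50f44f90f847d07c4f90f847d07c4f50f44dd0dc4f90f847d07c4f90f847d07c4dd0dc4dd0dc4f50f447d07c4f50f447d07c4dd0dc4ed0ec2f90f82dd0dc2f90f82dd0dc2ed0ec2ed0ec2f90f827d07c2f90f827d07c2ed0ec2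
def EDEC : Nat := (Nat.lor EDECp0 (Nat.shiftLeft EDECp1 4320))

/-- the 1-set of the long option `l` -/
def eA (l : Nat) : Nat := Nat.land (Nat.shiftRight EDEC (Nat.mul 12 (Nat.add (Nat.mul 4 (Nat.div l 16)) (Nat.mod l 4)))) 63
/-- the 5-set of the long option `l` -/
def eF (l : Nat) : Nat := Nat.land (Nat.shiftRight EDEC (Nat.add (Nat.mul 12 (Nat.add (Nat.mul 4 (Nat.div l 16)) (Nat.mod l 4))) 6)) 63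

end Pool.Agent.W708.OC
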