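import Pool.Agent.W708.OC.Cls
import Pool.Agent.W708.OC.T5
import Pool.Agent.W708.OC.C5_0
/-!
Group level of stage 5.
-/
set_option autoImplicit false
set_option maxRecDepth 100000

namespace Pool.Agent.W708.OC

namespace S5G

noncomputable def Rl : List Nat := [(nat_lit 0x15), (nat_lit 0x13), (nat_lit 0x293), (nat_lit 0x274), (nat_lit 0x14), (nat_lit 0xf), (nat_lit 0x2af), (nat_lit 0x26f), (nat_lit 0x526f), (nat_lit 0x4e8f), (nat_lit 0x28f), (nat_lit 0x2ca), (nat_lit 0x5aaa), (nat_lit 0x5a6a), (nat_lit 0xb526a), (nat_lit 0xb4e8a), (nat_lit 0x5a8a), (nat_lit 0x59ea), (nat_lit 0xb55ea), (nat_lit 0xb4dea), (nat_lit 0x16a4dea), (nat_lit 0x169d1ea), (nat_lit 0xb51ea), (nat_lit 0x1), (nat_lit 0x2a1), (nat_lit 0x261), (nat_lit 0x5261), (nat_lit 0x4e81), (nat_lit 0x281), (nat_lit 0x1e1), (nat_lit 0x55e1), (nat_lit 0x4de1), (nat_lit 0xa4de1), (nat_lit 0x9d1e1), (nat_lit 0x51e1), (nat_lit 0x5941), (nat_lit 0xb5541), (nat_lit 0xb4d41), (nat_lit 0x16a4d41),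 (nat_lit 0x169d141), (nat_lit 0xb5141), (nat_lit 0xb3d41), (nat_lit 0x16abd41), (nat_lit 0x169bd41), (nat_lit 0x2d49bd41), (nat_lit 0x2d3a3d41), (nat_lit 0x16a3d41), (nat_lit 0x124), (nat_lit 0x5524), (nat_lit 0x4d24), (nat_lit 0xa4d24), (nat_lit 0x9d124), (nat_lit 0x5124), (nat_lit 0x524), (nat_lit 0xa8524), (nat_lit 0x98524), (nat_lit 0x1498524), (nat_lit 0x13a0524), (nat_lit 0xa0524), (nat_lit 0xb2924), (nat_lit 0x16aa924), (nat_lit 0x169a924), (nat_lit 0x2d49a924), (nat_lit 0x2d3a2924), (nat_lit 0x16a2924), (nat_lit 0x160a924), (nat_lit 0x2d50a924), (nat_lit 0x2d30a924), (nat_lit 0x5a930a924), (nat_lit 0x5a740a924), (nat_lit 0x2d40a924), (nat_lit 0x505), (nat_lit 0xa8505), (nat_lit 0x98505), (nat_lit 0x1498505), (nat_lit 0x13a0505), (nat_lit 0xa0505), (nat_lit 0x105), (nat_lit 0x5505), (nat_lit 0x4d05), (nat_lit 0xa4d05), (nat_lit 0x9d105), (nat_lit 0x5105), (nat_lit 0x160a905), (nat_lit 0x2d50a905), (nat_lit 0x2d30a905), (nat_lit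 0x5a930a905), (nat_lit 0x5a740a905), (nat_lit 0x2d40a905), (nat_lit 0xb2905), (nat_lit 0x16aa905), (nat_lit 0x169a905), (nat_lit 0x2d49a905), (nat_lit 0x2d3a2905), (nat_lit 0x16a2905)]
theorem hW : ∀ g ∈ Rl, IsW actP g := fun g _ => isW_word g
theorem hR : allL (symOK actP 704) Rl = true := by decide +kernel
noncomputable def toks : List Nat := [(nat_lit 0x18004140487e07040480c07440480c08184808d8480b444c40446c4308400bc40843046040485c0d04044304088240d840881c0e04084648300e44084308240ec40846086c1084048101184088301244088601bc4088501e086c21086c43040840),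
  (nat_lit 0x21444c8402218c22704048100408100448104040758ce09540c4108ee09940c4108ee0c546c45c8ee0c941040c8ee1318c71518e81618991e18d91f18a80f441042442c40c46c458418444c0010440c41843442c44041045c464c0010c45043440),
  (nat_lit 0x41045c46c424440468c0011442440c41c454418434410428c0081419883080415)]

noncomputable def L : List Nat := S5.C5_0.l0
theorem hc : eqL (collect 720 S5.F G0 actP (hdG (parse toks)) (Nat.land FULL (Nat.land (S5.F (Nat.shiftLeft 1 0)) (S5.F (Nat.shiftLeft 1 704)))) Rl []) L = true := by decide +kernel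
theorem hL {V : (Nat → Prop) → Prop} (hS : Sound S5.F G0 S5.H V) : ∀ a ∈ L, Bad V a := by
  intro a ha
  unfold L at ha
  exact S5.C5_0.ab hS a ha

theorem stage {V0 : (Nat → Prop) → Prop} (hV : PullV V0) {pats : List Nat} (hpats : ∀ p ∈ pats, p < 720)
    (hS : Sound S5.F G0 S5.H (VS V0 pats)) : ∀ P, VS V0 pats P → ¬ (P 0 ∧ P 704) :=
  stage_sound hV hpats hS (by decide) hW hR (hL hS) hc

end S5G

end Pool.Agent.W708.OC
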