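import Pool.Agent.W708.OC.Sem
import Pool.Agent.W708.OC.Chk
import Pool.Agent.W439.OC.Adm
import Pool.Agent.W599.SCD.Pull
/-!
Admissible selections satisfy the requirements of the plain machine.
-/
set_option autoImplicit false

namespace Pool.Agent.W708.OC

theorem V_adm {P : Nat → Prop} (h : V P) : Adm P := by
  obtain ⟨R, hR, hP⟩ := h
  have h1 := Pool.Agent.W439.OC.adm_of_good R hR
  have h2 : P = PR R := funext (fun o => propext (hP o))
  rw [h2]; exact h1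

theorem V_item2 {P : Nat → Prop} (hP : V P) (c : Nat) :
    (240 ≤ c ∧ G0 c = 0) ∨ ∃ o, P o ∧ (G0 c).testBit o = true := by
  have hA := V_adm hP
  by_cases h240 : 240 ≤ c
  · left; exact ⟨h240, G0_big h240⟩
  right
  have hk3 : ∀ {c : Nat}, Nat.ble (kb c) 3 = true → kb c < 4 := by
    intro c h
    have := ble_le h
    omega
  by_cases h60 : c < 60
  · obtain ⟨h1, h2⟩ := andB_iff (allB_iff IA c h60)
    obtain ⟨h2, h3⟩ := andB_iff h2
    obtain ⟨q0, hq0, h4⟩ := anyB_iff h1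
    obtain ⟨q, hq, hX, hPq⟩ := hA.i0 q0 hq0 (kb c) (hk3 h2)
    have h5 := impB_iff (allB_iff h3 q hq) (by rw [hX]; exact h4)
    rw [tb_eq] at h5
    exact ⟨4 * q + kb c, hPq, h5⟩
  by_cases h120 : c < 120
  · have h0 := allB_iff IB (c - 60) (by omega)
    have e : Nat.add 60 (c - 60) = c := by show 60 + (c - 60) = c; omega
    rw [e] at h0
    obtain ⟨h1, h2⟩ := andB_iff h0
    obtain ⟨h2, h3⟩ := andB_iff h2
    obtain ⟨q0, hq0, h4⟩ := anyB_iff h1
    obtain ⟨q, hq, hX, hPq⟩ := hA.i1 q0 hq0 (kb c) (hk3 h2)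
    have h5 := impB_iff (allB_iff h3 q hq) (by rw [hX]; exact h4)
    rw [tb_eq] at h5
    exact ⟨4 * q + kb c, hPq, h5⟩
  by_cases h180 : c < 180
  · have h0 := allB_iff IC (c - 120) (by omega)
    have e : Nat.add 120 (c - 120) = c := by show 120 + (c - 120) = c; omega
    rw [e] at h0
    obtain ⟨h1, h3⟩ := andB_iff h0
    obtain ⟨q0, hq0, h4⟩ := anyB_iff h1
    obtain ⟨h4, h4'⟩ := andB_iff h4
    obtain ⟨q, d, hq, hd, hX, hT, hPq⟩ := hA.i2 q0 hq0
    have h5 := allB_iff (impB_iff (impB_iff (allB_iff h3 q hq) (by rw [hX]; exact h4)) (by rw [hT]; exact h4')) d hd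
    rw [tb_eq] at h5
    exact ⟨4 * q + d, hPq, h5⟩
  · have h0 := allB_iff ID (c - 180) (by omega)
    have e : Nat.add 180 (c - 180) = c := by show 180 + (c - 180) = c; omega
    rw [e] at h0
    obtain ⟨h1, h3⟩ := andB_iff h0
    obtain ⟨q0, hq0, h4⟩ := anyB_iff h1
    obtain ⟨h4, h4'⟩ := andB_iff h4
    obtain ⟨q, d, hq, hd, hX, hT, hPq⟩ := hA.i3 q0 hq0
    have h5 := allB_iff (impB_iff (impB_iff (allB_iff h3 q hq) (by rw [hX]; exact h4)) (by rw [hT]; exact h4')) d hd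
    rw [tb_eq] at h5
    exact ⟨4 * q + d, hPq, h5⟩

theorem V_item {P : Nat → Prop} (hP : V P) (c : Nat) : G0 c = 0 ∨ ∃ o, P o ∧ (G0 c).testBit o = true := by
  rcases V_item2 hP c with h | h
  · exact Or.inl h.2
  · exact Or.inr h

theorem split64 {a b a' b' : Nat} (hb : b < 64) (hb' : b' < 64) (h : 64 * a + b = 64 * a' + b') : a = a' ∧ b = b' := by
  omega

theorem V_conf {P : Nat → Prop} (hP : V P) {o p : Nat} (ho : P o) (hp : P p) (hne : o ≠ p) (k : Nat) (hk : k < 6) :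
    idx k p ≠ idx k o := by
  have hA := V_adm hP
  have ho' := hA.lt o ho
  have hp' := hA.lt p hp
  intro h
  have h1 : keyk k (p / 4) (p % 4) = keyk k (o / 4) (o % 4) := by
    rw [← key_eq hp' hk, ← key_eq ho' hk, h]
  have hX := dX_lt; have hT := dT_lt; have hY := dY_lt
  have hd1 : o % 4 < 64 := by omega
  have hd2 : p % 4 < 64 := by omega
  have hcase : k = 0 ∨ k = 1 ∨ k = 2 ∨ k = 3 ∨ k = 4 ∨ k = 5 := by omega
  rcases hcase with rfl | rfl | rfl | rfl | rfl | rfl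
  · have h2 : 64 * dX (p / 4) + p % 4 = 64 * dX (o / 4) + o % 4 := h1
    obtain ⟨h3, h4⟩ := split64 hd2 hd1 h2
    exact hA.c0 o p ho hp hne ⟨h3.symm, h4.symm⟩
  · have h2 : 64 * dY (p / 4) + p % 4 = 64 * dY (o / 4) + o % 4 := h1
    obtain ⟨h3, h4⟩ := split64 hd2 hd1 h2
    exact hA.c1 o p ho hp hne ⟨h3.symm, h4.symm⟩
  · have h2 : 64 * dX (p / 4) + dT (p / 4) = 64 * dX (o / 4) + dT (o / 4) := h1
    obtain ⟨h3, h4⟩ := split64 (hT _) (hT _) h2
    exact hA.c2 o p ho hp hne ⟨h3.symm, h4.symm⟩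
  · have h2 : 64 * dY (p / 4) + dT (p / 4) = 64 * dY (o / 4) + dT (o / 4) := h1
    obtain ⟨h3, h4⟩ := split64 (hT _) (hT _) h2
    exact hA.c3 o p ho hp hne ⟨h3.symm, h4.symm⟩
  · have h2 : 64 * dT (p / 4) + p % 4 = 64 * dT (o / 4) + o % 4 := h1
    obtain ⟨h3, h4⟩ := split64 hd2 hd1 h2
    exact hA.c4 o p ho hp hne ⟨h3.symm, h4.symm⟩
  · have h2 : 64 * dX (p / 4) + dY (p / 4) = 64 * dX (o / 4) + dY (o / 4) := h1
    obtain ⟨h3, h4⟩ := split64 (hY _) (hY _) h2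
    exact hA.c5 o p ho hp hne ⟨h3.symm, h4.symm⟩

theorem V_pullV : PullV V where
  lt := fun P hP o ho => (V_adm hP).lt o ho
  pull := fun d hd P hP => Pool.Agent.W599.SCD.V_pull d hd P hP
  a1lt := fun d hd o ho => Pool.Agent.W599.SCD.A1_lt d hd o ho

end Pool.Agent.W708.OC
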