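import Pool.Agent.W708.OC.Core
/-!
Group level of the search: branching on an option up to a list of symmetries.
-/
set_option autoImplicit false
set_option linter.unusedSimpArgs false

namespace Pool.Agent.W708.OC

inductive GT where
  | exc (e : Nat) (t1 t2 : GT) : GT
  | frc (i : Nat) (t : GT) : GT
  | dead (i : Nat) : GT
  | cube : GT

section
variable (N : Nat) (F G : Nat → Nat) (act : Nat → Nat → Nat)

/-- symmetries of the list that fix `e` -/
noncomputable def fixl (e : Nat) (l : List Nat) : List Nat :=
  List.rec (motive := fun _ => List Nat) []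
    (fun g _ ih => Bool.rec (motive := fun _ => List Nat) ih (g :: ih) (Nat.beq (act g e) e)) l

/-- mask of `e` and its images under the list -/
noncomputable def orb (e : Nat) (l : List Nat) : Nat :=
  List.rec (motive := fun _ => Nat) (Nat.shiftLeft 1 e)
    (fun g _ ih => Nat.lor ih (Nat.shiftLeft 1 (act g e))) l

noncomputable def frc1 (ih : Nat → List Nat → List Nat → List Nat) (A : Nat) (l k : List Nat) (mm : Nat) : List Nat :=
  Bool.rec (motive := fun _ => List Nat)
    (Bool.rec (motive := fun _ => List Nat) (A :: k) (ih (Nat.land A (F mm)) l k) (Nat.beq (Nat.land mm (Nat.sub mm 1)) 0))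
    (A :: k) (Nat.beq mm 0)

/-- the list of masks left to the plain machine -/
noncomputable def collect (t : GT) : Nat → List Nat → List Nat → List Nat :=
  GT.rec (motive := fun _ => Nat → List Nat → List Nat → List Nat)
    (fun e _ _ ih1 ih2 A l k =>
      Bool.rec (motive := fun _ => List Nat)
        (ih1 (Nat.land A (F (Nat.shiftLeft 1 e))) (fixl act e l) (ih2 (Nat.xor A (Nat.land A (orb act e l))) l k))
        (A :: k) (Nat.ble N e))
    (fun i _ ih A l k => frc1 F ih A l k (Nat.land A (G i)))
    (fun i A _ k => Bool.rec (motive := fun _ => List Nat) (A :: k)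
        (Bool.rec (motive := fun _ => List Nat) k (A :: k) (Nat.beq (G i) 0)) (Nat.beq (Nat.land A (G i)) 0))
    (fun A _ k => A :: k) t
end

section
variable {N : Nat} {F G : Nat → Nat} {H : Nat → Nat → Bool} {act : Nat → Nat → Nat} {V : (Nat → Prop) → Prop}

def actW (act : Nat → Nat → Nat) : List Nat → Nat → Nat
  | [], x => x
  | g :: w, x => act g (actW act w x)

theorem fixl_mem {e g : Nat} : ∀ {l : List Nat}, g ∈ fixl act e l → g ∈ l ∧ act g e = e := by
  intro l
  induction l with
  | nil => intro h; exact absurd h (by show ¬ g ∈ ([] : List Nat); simp)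
  | cons a l ih =>
    intro h
    have h1 : g ∈ Bool.rec (motive := fun _ => List Nat) (fixl act e l) (a :: fixl act e l) (Nat.beq (act a e) e) := h
    cases hh : Nat.beq (act a e) e with
    | false =>
      rw [hh] at h1
      exact ⟨List.mem_cons_of_mem _ (ih h1).1, (ih h1).2⟩
    | true =>
      rw [hh] at h1
      rcases List.mem_cons.1 h1 with h2 | h2
      · rw [h2]; exact ⟨List.mem_cons_self, Nat.eq_of_beq_eq_true hh⟩
      · exact ⟨List.mem_cons_of_mem _ (ih h2).1, (ih h2).2⟩

theorem one_shl (e i : Nat) : (Nat.shiftLeft 1 e).testBit i = decide (i = e) := by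
  have h : Nat.shiftLeft 1 e = 2 ^ e := by
    show 1 <<< e = 2 ^ e
    rw [Nat.shiftLeft_eq, Nat.one_mul]
  rw [h, Nat.testBit_two_pow]
  by_cases h : i = e
  · simp [h]
  · simp [h]; exact fun h' => h h'.symm

theorem orb_mem {e x : Nat} : ∀ {l : List Nat}, (orb act e l).testBit x = true → x = e ∨ ∃ g ∈ l, x = act g e := by
  intro l
  induction l with
  | nil => intro h; left; have h1 : (Nat.shiftLeft 1 e).testBit x = true := h; rw [one_shl] at h1; simpa using h1
  | cons a l ih =>
    intro h
    have h1 : (Nat.lor (orb act e l) (Nat.shiftLeft 1 (act a e))).testBit x = true := h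
    have h2 : ((orb act e l) ||| (Nat.shiftLeft 1 (act a e))).testBit x = true := h1
    rw [Nat.testBit_or, one_shl] at h2
    rcases Bool.or_eq_true _ _ ▸ h2 with h3 | h3
    · rcases ih h3 with h4 | ⟨g, hg, h4⟩
      · left; exact h4
      · right; exact ⟨g, List.mem_cons_of_mem _ hg, h4⟩
    · right; exact ⟨a, List.mem_cons_self, by simpa using h3⟩

/-- `Phi` is closed under the symmetry `g`. -/
def Closed (N : Nat) (act : Nat → Nat → Nat) (Phi : (Nat → Prop) → Prop) (g : Nat) : Prop :=
  ∀ P, Phi P → ∃ P', Phi P' ∧ ∀ x, x < N → (P' x ↔ P (act g x))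

theorem actW_lt {e : Nat} (he : e < N) {l : List Nat} (hact : ∀ g ∈ l, ∀ x, x < N → act g x < N) :
    ∀ w : List Nat, (∀ g ∈ w, g ∈ l) → actW act w e < N := by
  intro w
  induction w with
  | nil => intro _; exact he
  | cons g w ih =>
    intro h
    exact hact g (h g List.mem_cons_self) _ (ih (fun x hx => h x (List.mem_cons_of_mem _ hx)))

/-- stack of the masks of a list -/
noncomputable def mkS (l : List Nat) : Stk :=
  List.rec (motive := fun _ => Stk) .nil (fun a _ ih => .top a ih) l

theorem mkS_bad : ∀ {l : List Nat}, AllBad V (mkS l) → ∀ a ∈ l, Bad V a := by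
  intro l
  induction l with
  | nil => intro _ a ha; exact absurd ha (by simp)
  | cons b l ih =>
    intro h a ha
    have h1 : Bad V b ∧ AllBad V (mkS l) := h
    rcases List.mem_cons.1 ha with h2 | h2
    · rw [h2]; exact h1.1
    · exact ih h1.2 a h2

/-- if `P` selects a word image of `e`, some admissible `P'` selects `e` -/
theorem bring {Phi : (Nat → Prop) → Prop} {e : Nat} (he : e < N) {l : List Nat}
    (hact : ∀ g ∈ l, ∀ x, x < N → act g x < N) (hcl : ∀ g ∈ l, Closed N act Phi g) :
    ∀ w : List Nat, (∀ g ∈ w, g ∈ l) → ∀ P, Phi P → P (actW act w e) → ∃ P', Phi P' ∧ P' e := by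
  intro w
  induction w with
  | nil => intro _ P hP hPe; exact ⟨P, hP, hPe⟩
  | cons g w ih =>
    intro h P hP hPe
    have hw : ∀ g ∈ w, g ∈ l := fun x hx => h x (List.mem_cons_of_mem _ hx)
    obtain ⟨P', hP', hx⟩ := hcl g (h g List.mem_cons_self) P hP
    exact ih hw P' hP' ((hx _ (actW_lt he hact w hw)).2 hPe)

theorem collect_sound (hS : Sound F G H V) :
    ∀ (t : GT) (A : Nat) (l k : List Nat) (Phi : (Nat → Prop) → Prop), (∀ P, Phi P → V P) →
      (∀ g ∈ l, ∀ x, x < N → act g x < N) → (∀ g ∈ l, Closed N act Phi g) →
      (∀ P, Phi P → Sub P A) → (∀ a ∈ collect N F G act t A l k, Bad V a) →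
      (∀ P, Phi P → False) ∧ (∀ a ∈ k, Bad V a) := by
  have key : ∀ (A : Nat) (k : List Nat) (Phi : (Nat → Prop) → Prop), (∀ P, Phi P → V P) →
      (∀ P, Phi P → Sub P A) → (∀ a ∈ A :: k, Bad V a) → (∀ P, Phi P → False) ∧ (∀ a ∈ k, Bad V a) := by
    intro A k Phi hV hsub h
    refine ⟨fun P hP => h A List.mem_cons_self P (hV P hP) (hsub P hP), fun a ha => h a (List.mem_cons_of_mem _ ha)⟩
  intro t
  induction t with
  | cube =>
    intro A l k Phi hV _ _ hsub h
    exact key A k Phi hV hsub h
  | dead i =>
    intro A l k Phi hV _ _ hsub h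
    have h1 : ∀ a ∈ (Bool.rec (motive := fun _ => List Nat) (A :: k)
        (Bool.rec (motive := fun _ => List Nat) k (A :: k) (Nat.beq (G i) 0)) (Nat.beq (Nat.land A (G i)) 0)), Bad V a := h
    cases hh : Nat.beq (Nat.land A (G i)) 0 with
    | false => rw [hh] at h1; exact key A k Phi hV hsub h1
    | true =>
      rw [hh] at h1
      cases hg : Nat.beq (G i) 0 with
      | true => rw [hg] at h1; exact key A k Phi hV hsub h1
      | false =>
        rw [hg] at h1
        refine ⟨fun P hP => ?_, h1⟩
        rcases hS.item P (hV P hP) i with h2 | ⟨o, ho, hob⟩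
        · rw [h2] at hg; exact absurd hg (by decide)
        · have h3 : (A &&& G i).testBit o = true := by rw [Nat.testBit_and, hsub P hP o ho, hob]; rfl
          rw [show (A &&& G i) = 0 from Nat.eq_of_beq_eq_true hh, Nat.zero_testBit] at h3
          exact absurd h3 (by simp)
  | frc i t ih =>
    intro A l k Phi hV hact hcl hsub h
    have h1 : ∀ a ∈ (Bool.rec (motive := fun _ => List Nat)
      (Bool.rec (motive := fun _ => List Nat) (A :: k) (collect N F G act t (Nat.land A (F (Nat.land A (G i)))) l k)
        (Nat.beq (Nat.land (Nat.land A (G i)) (Nat.sub (Nat.land A (G i)) 1)) 0))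
      (A :: k) (Nat.beq (Nat.land A (G i)) 0)), Bad V a := h
    cases hh : Nat.beq (Nat.land A (G i)) 0 with
    | true => rw [hh] at h1; exact key A k Phi hV hsub h1
    | false =>
      rw [hh] at h1
      cases h2 : Nat.beq (Nat.land (Nat.land A (G i)) (Nat.sub (Nat.land A (G i)) 1)) 0 with
      | false => rw [h2] at h1; exact key A k Phi hV hsub h1
      | true =>
        rw [h2] at h1
        have hne : (A &&& G i) ≠ 0 := by
          intro h0
          have : Nat.beq (Nat.land A (G i)) 0 = true := by rw [show Nat.land A (G i) = 0 from h0]; rfl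
          rw [hh] at this; exact absurd this (by decide)
        have hz : ((A &&& G i) &&& ((A &&& G i) - 1)) = 0 := Nat.eq_of_beq_eq_true h2
        obtain ⟨o, ho1, ho2, ho3⟩ := low _ hne
        rw [hz, Nat.xor_zero] at ho2
        have hpow : Nat.land A (G i) = 2 ^ o := ho2
        refine ih (Nat.land A (F (Nat.land A (G i)))) l k Phi hV hact hcl ?_ h1
        intro P hP
        rcases hS.item P (hV P hP) i with h3 | ⟨o', ho', hob⟩
        · exact absurd (show (A &&& G i) = 0 by rw [h3]; simp) hne
        · have h4 : (A &&& G i).testBit o' = true := by rw [Nat.testBit_and, hsub P hP o' ho', hob]; rfl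
          have h5 : o' = o := by
            rw [show (A &&& G i) = 2 ^ o from hpow, Nat.testBit_two_pow] at h4
            simpa using (of_decide_eq_true h4).symm
          rw [h5] at ho'
          intro p hp
          show (A &&& F (Nat.land A (G i))).testBit p = true
          rw [Nat.testBit_and, hsub P hP p hp, hpow, hS.comp P (hV P hP) o p ho' hp]; rfl
  | exc e t1 t2 ih1 ih2 =>
    intro A l k Phi hV hact hcl hsub h
    have h1 : ∀ a ∈ (Bool.rec (motive := fun _ => List Nat)
        (collect N F G act t1 (Nat.land A (F (Nat.shiftLeft 1 e))) (fixl act e l)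
          (collect N F G act t2 (Nat.xor A (Nat.land A (orb act e l))) l k))
        (A :: k) (Nat.ble N e)), Bad V a := h
    cases hh : Nat.ble N e with
    | true => rw [hh] at h1; exact key A k Phi hV hsub h1
    | false =>
      rw [hh] at h1
      have he : e < N := by
        rcases Nat.lt_or_ge e N with h2 | h2
        · exact h2
        · have : Nat.ble N e = true := Nat.ble_eq_true_of_le h2
          rw [hh] at this; exact absurd this (by decide)
      have hpow : Nat.shiftLeft 1 e = 2 ^ e := by
        show 1 <<< e = 2 ^ e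
        rw [Nat.shiftLeft_eq, Nat.one_mul]
      -- first branch
      have hA := ih1 (Nat.land A (F (Nat.shiftLeft 1 e))) (fixl act e l)
        (collect N F G act t2 (Nat.xor A (Nat.land A (orb act e l))) l k) (fun P => Phi P ∧ P e)
        (fun P hP => hV P hP.1) (fun g hg => hact g (fixl_mem hg).1)
        (by
          intro g hg P hP
          obtain ⟨hgl, hge⟩ := fixl_mem hg
          obtain ⟨P', hP', hx⟩ := hcl g hgl P hP.1
          refine ⟨P', ⟨hP', (hx e he).2 ?_⟩, hx⟩
          rw [hge]; exact hP.2)
        (by
          intro P hP p hp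
          show (A &&& F (Nat.shiftLeft 1 e)).testBit p = true
          rw [Nat.testBit_and, hsub P hP.1 p hp, hpow, hS.comp P (hV P hP.1) e p hP.2 hp]; rfl)
        h1
      obtain ⟨hno, hrest⟩ := hA
      -- second branch
      have hB := ih2 (Nat.xor A (Nat.land A (orb act e l))) l k
        (fun P => Phi P ∧ ∀ w : List Nat, (∀ g ∈ w, g ∈ l) → ¬ P (actW act w e))
        (fun P hP => hV P hP.1) hact
        (by
          intro g hg P hP
          obtain ⟨P', hP', hx⟩ := hcl g hg P hP.1
          refine ⟨P', ⟨hP', ?_⟩, hx⟩
          intro w hw hPw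
          have h3 := (hx _ (actW_lt he hact w hw)).1 hPw
          exact hP.2 (g :: w) (by
            intro x hxm
            rcases List.mem_cons.1 hxm with h4 | h4
            · rw [h4]; exact hg
            · exact hw x h4) h3)
        (by
          intro P hP p hp
          have h3 : ¬ (orb act e l).testBit p = true := by
            intro h4
            rcases orb_mem h4 with h5 | ⟨g, hg, h5⟩
            · exact hP.2 [] (by intro x hx; exact absurd hx (by simp)) (by rw [h5] at hp; exact hp)
            · exact hP.2 [g] (by intro x hx; have : x = g := by simpa using hx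
                                 rw [this]; exact hg) (by rw [h5] at hp; exact hp)
          show (A ^^^ (A &&& orb act e l)).testBit p = true
          rw [Nat.testBit_xor, Nat.testBit_and, hsub P hP.1 p hp]
          cases h6 : (orb act e l).testBit p with
          | true => exact absurd h6 h3
          | false => rfl)
        hrest
      obtain ⟨hno2, hk⟩ := hB
      refine ⟨?_, hk⟩
      intro P hP
      by_cases hex : ∃ w : List Nat, (∀ g ∈ w, g ∈ l) ∧ P (actW act w e)
      · obtain ⟨w, hw, hPw⟩ := hex
        obtain ⟨P', hP', hPe⟩ := bring he hact hcl w hw P hP hPw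
        exact hno P' ⟨hP', hPe⟩
      · exact hno2 P ⟨hP, fun w hw hPw => hex ⟨w, hw, hPw⟩⟩
end

end Pool.Agent.W708.OC
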