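import Pool.Agent.W708.OC.K0_3
import Pool.Agent.W708.OC.Cls
/-!
Complete selections of stage 2, part 0.
-/
set_option autoImplicit false
set_option maxRecDepth 100000

namespace Pool.Agent.W708.OC

namespace S2K

noncomputable def sw0 : List Nat := [(nat_lit 0x1240002d53a969200004010800080001002400100040008020400080200100002001800004001080200004080400020001008001400002010200040080800002010400100040200008080010002400010008004200001200080040080400020001),
  (nat_lit 0x12408522643023200008010004001800040020040001080002008100200040800001040200080400001200100008020400400080001020020004008100020010008040008200100004400010002080001800040020100020800400008004200001),
  (nat_lit 0x12400001361823400010002080001200800040800001020004100002400800004001080002020080001400002100040080080020001040200008400100040002010008010400002800800010200004001200800040100002040800040008020001),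
  (nat_lit 0x1240002d28b8e8400010200800080020004010002100008040001080400002004200800010001008400002800040200001080001004200010400020008008200010040100020400080008010200004010080002400001400008020800040200001),
  (nat_lit 0x124000000b5127800020400100020001004800400080001020002100800004020040008100004002010008008100400002010004020008008200400010200080100040020800040100002010800004040001008200100080002040080400020001)]
theorem so0 : allL (solOK ix CL) sw0 = true := by decide +kernel

end S2K

end Pool.Agent.W708.OC
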