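import Pool.Agent.W708.OC.Act
/-!
Key rows: for each of the six kinds `k` the options are partitioned by the key index `idx k o`.
-/
set_option autoImplicit false
set_option linter.unusedSimpArgs false
set_option maxRecDepth 100000

namespace Pool.Agent.W708.OC

noncomputable def FULL : Nat := Nat.sub (Nat.shiftLeft 1 720) 1

/-- key index of kind `k` of the option `o` -/
noncomputable def idx (k o : Nat) : Nat := Nat.land (Nat.shiftRight IDX (Nat.add (Nat.mul 54 o) (Nat.mul 9 k))) 511

/-- row of key index `c` -/
noncomputable def rwm (c : Nat) : Nat :=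
  Nat.land (Bool.rec (motive := fun _ => Nat) (Nat.shiftRight RT (Nat.mul 720 (Nat.sub c 240))) (G0 c) (Nat.ble c 239)) FULL

/-- union of the key rows of the option `o` -/
noncomputable def cm (o : Nat) : Nat := accOr (fun k => rwm (idx k o)) 6

/-- first key index of kind `k` -/
noncomputable def ks (k : Nat) : Nat := Nat.land (Nat.shiftRight 0x66a80f05a1e07800 (Nat.mul 9 k)) 511

noncomputable def P1chk (o : Nat) : Bool :=
  allB (fun k => Bool.rec (motive := fun _ => Bool) false
    (Bool.rec (motive := fun _ => Bool) false (tb (rwm (idx k o)) o) (Nat.ble (ks k) (idx k o)))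
    (Nat.ble (Nat.succ (idx k o)) (ks (Nat.succ k)))) 6

noncomputable def Dchk (k : Nat) : Bool := disjB (fun i => rwm (Nat.add (ks k) i)) (Nat.sub (ks (Nat.succ k)) (ks k))

theorem P1 : allB P1chk 720 = true := by decide +kernel

theorem D1 : allB Dchk 6 = true := by decide +kernel

theorem ble_le {a b : Nat} (h : Nat.ble a b = true) : a ≤ b := Nat.le_of_ble_eq_true h

theorem idx_spec {o k : Nat} (ho : o < 720) (hk : k < 6) :
    (rwm (idx k o)).testBit o = true ∧ ks k ≤ idx k o ∧ idx k o < ks (k + 1) := by
  have h1 : P1chk o = true := allB_iff P1 o ho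
  have h2 := allB_iff h1 k hk
  cases ha : Nat.ble (Nat.succ (idx k o)) (ks (Nat.succ k)) with
  | false => rw [ha] at h2; exact Bool.noConfusion h2
  | true =>
    rw [ha] at h2
    cases hb : Nat.ble (ks k) (idx k o) with
    | false => rw [hb] at h2; exact Bool.noConfusion h2
    | true =>
      rw [hb] at h2
      refine ⟨?_, ble_le hb, ble_le ha⟩
      rw [← tb_eq]; exact h2

theorem row_spec {o p k : Nat} (ho : o < 720) (hp : p < 720) (hk : k < 6)
    (h : (rwm (idx k o)).testBit p = true) : idx k p = idx k o := by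
  have hD : disjB (fun i => rwm (Nat.add (ks k) i)) (Nat.sub (ks (Nat.succ k)) (ks k)) = true := allB_iff D1 k hk
  obtain ⟨_, h2, h3⟩ := idx_spec ho hk
  obtain ⟨h4, h5, h6⟩ := idx_spec hp hk
  have e1 : Nat.add (ks k) (idx k o - ks k) = idx k o := Nat.add_sub_cancel' h2
  have e2 : Nat.add (ks k) (idx k p - ks k) = idx k p := Nat.add_sub_cancel' h5
  have h7 := disjB_eq hD (i := idx k p - ks k) (j := idx k o - ks k) (p := p)
    (Nat.sub_lt_sub_right h5 h6) (Nat.sub_lt_sub_right h2 h3)
    (by rw [e2]; exact h4) (by rw [e1]; exact h)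
  omega

theorem cm_spec {o p : Nat} (ho : o < 720) (hp : p < 720) (h : (cm o).testBit p = true) :
    ∃ k, k < 6 ∧ idx k p = idx k o := by
  obtain ⟨k, hk, h1⟩ := accOr_of_bit h
  exact ⟨k, hk, row_spec ho hp hk h1⟩

theorem FULL_bit {p : Nat} (hp : p < 720) : FULL.testBit p = true := by
  have h : FULL = 2 ^ 720 - 1 := by
    show Nat.shiftLeft 1 720 - 1 = 2 ^ 720 - 1
    have : Nat.shiftLeft 1 720 = 2 ^ 720 := by
      show 1 <<< 720 = 2 ^ 720
      rw [Nat.shiftLeft_eq, Nat.one_mul]
    rw [this]
  rw [h, Nat.testBit_two_pow_sub_one]; exact decide_eq_true hp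

/-- row check of the base table -/
noncomputable def base_chk (F : Nat → Nat) (o : Nat) : Bool :=
  Bool.rec (motive := fun _ => Bool) false
    (tb (F (Nat.shiftLeft 1 o)) o)
    (Nat.beq (Nat.lor (Nat.land (F (Nat.shiftLeft 1 o)) FULL) (cm o)) FULL)

theorem shl_one (o : Nat) : Nat.shiftLeft 1 o = 2 ^ o := by
  show 1 <<< o = 2 ^ o
  rw [Nat.shiftLeft_eq, Nat.one_mul]

theorem base_comp {F : Nat → Nat} (hF : allB (base_chk F) 720 = true) {o p : Nat} (ho : o < 720) (hp : p < 720)
    (hc : o ≠ p → ∀ k, k < 6 → idx k p ≠ idx k o) : (F (2 ^ o)).testBit p = true := by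
  have h1 : base_chk F o = true := allB_iff hF o ho
  unfold base_chk at h1
  cases hb : Nat.beq (Nat.lor (Nat.land (F (Nat.shiftLeft 1 o)) FULL) (cm o)) FULL with
  | false => rw [hb] at h1; exact Bool.noConfusion h1
  | true =>
    rw [hb] at h1
    rw [tb_eq, shl_one] at h1
    by_cases hop : o = p
    · rw [← hop]; exact h1
    · have h2 : (((F (Nat.shiftLeft 1 o)) &&& FULL) ||| (cm o)) = FULL := Nat.eq_of_beq_eq_true hb
      have h3 : (((F (Nat.shiftLeft 1 o)) &&& FULL) ||| (cm o)).testBit p = true := by rw [h2]; exact FULL_bit hp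
      rw [Nat.testBit_or, Nat.testBit_and, shl_one] at h3
      cases h4 : (F (2 ^ o)).testBit p with
      | true => rfl
      | false =>
        rw [h4] at h3
        have h5 : (cm o).testBit p = true := by simpa using h3
        obtain ⟨k, hk, h6⟩ := cm_spec ho hp h5
        exact absurd h6 (hc hop k hk)

/-! ### Passing from one stage to the next -/

/-- partner of option 0 given by the word `u` for the pattern `p` -/
noncomputable def partn (p u : Nat) : Nat := Nat.add (actP u 0) (actP u p)

noncomputable def okU (p u : Nat) : Bool :=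
  Bool.rec (motive := fun _ => Bool) (Nat.beq (actP u p) 0) true (Nat.beq (actP u 0) 0)

noncomputable def allL (f : Nat → Bool) (l : List Nat) : Bool :=
  List.rec (motive := fun _ => Bool) true (fun a _ ih => Bool.rec (motive := fun _ => Bool) false ih (f a)) l

theorem allL_iff {f : Nat → Bool} : ∀ {l : List Nat}, allL f l = true → ∀ a ∈ l, f a = true := by
  intro l
  induction l with
  | nil => intro _ a ha; exact absurd ha (by simp)
  | cons b l ih =>
    intro h a ha
    have h1 : Bool.rec (motive := fun _ => Bool) false (allL f l) (f b) = true := h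
    cases hf : f b with
    | false => rw [hf] at h1; exact Bool.noConfusion h1
    | true =>
      rw [hf] at h1
      rcases List.mem_cons.1 ha with h2 | h2
      · rw [h2]; exact hf
      · exact ih h1 a h2

noncomputable def killM (t p : Nat) (us : List Nat) : Nat :=
  List.rec (motive := fun _ => Nat) 0 (fun u _ ih => Nat.lor ih (Nat.shiftLeft 1 (actP t (partn p u)))) us

theorem killM_bit {t p x : Nat} : ∀ {us : List Nat}, (killM t p us).testBit x = true →
    ∃ u ∈ us, x = actP t (partn p u) := by
  intro us
  induction us with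
  | nil => intro h; have h1 : (0 : Nat).testBit x = true := h; simp at h1
  | cons u us ih =>
    intro h
    have h1 : ((killM t p us) ||| (Nat.shiftLeft 1 (actP t (partn p u)))).testBit x = true := h
    rw [Nat.testBit_or, one_shl] at h1
    rcases Bool.or_eq_true _ _ ▸ h1 with h2 | h2
    · obtain ⟨v, hv, h3⟩ := ih h2
      exact ⟨v, List.mem_cons_of_mem _ hv, h3⟩
    · exact ⟨u, List.mem_cons_self, by simpa using h2⟩

/-- row check: `F'` is `F` without the images of the pattern `p` -/
noncomputable def next_chk (tw : Nat → Nat) (p : Nat) (us : List Nat) (F F' : Nat → Nat) (o : Nat) : Bool :=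
  Bool.rec (motive := fun _ => Bool) false
    (Nat.beq (Nat.land (Nat.land (F (Nat.shiftLeft 1 o)) FULL) (Nat.lor (F' (Nat.shiftLeft 1 o)) (killM (tw o) p us)))
      (Nat.land (F (Nat.shiftLeft 1 o)) FULL))
    (Nat.beq (actP (tw o) 0) o)

theorem next_comp {V : (Nat → Prop) → Prop} {tw : Nat → Nat} {p0 : Nat} {us pats : List Nat} {F F' : Nat → Nat}
    (hu : allL (okU p0) us = true) (hF : ∀ o, o < 720 → next_chk tw p0 us F F' o = true) {P : Nat → Prop}
    (hP : VS V (p0 :: pats) P) {o p : Nat} (ho : o < 720) (hp : p < 720) (hPo : P o) (hPp : P p)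
    (hc : (F (2 ^ o)).testBit p = true) : (F' (2 ^ o)).testBit p = true := by
  have h1 : next_chk tw p0 us F F' o = true := hF o ho
  unfold next_chk at h1
  cases hb : Nat.beq (actP (tw o) 0) o with
  | false => rw [hb] at h1; exact Bool.noConfusion h1
  | true =>
    rw [hb] at h1
    have h2 : ((F (Nat.shiftLeft 1 o) &&& FULL) &&& (F' (Nat.shiftLeft 1 o) ||| killM (tw o) p0 us)) =
      (F (Nat.shiftLeft 1 o) &&& FULL) := Nat.eq_of_beq_eq_true h1
    have h3 : (F (Nat.shiftLeft 1 o) &&& FULL).testBit p = true := by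
      rw [Nat.testBit_and, shl_one, hc, FULL_bit hp]; rfl
    rw [← h2, Nat.testBit_and, Nat.testBit_or] at h3
    have h4 := (Bool.and_eq_true _ _ ▸ h3).2
    rcases Bool.or_eq_true _ _ ▸ h4 with h5 | h5
    · rw [shl_one] at h5; exact h5
    · exfalso
      obtain ⟨u, hu1, hx⟩ := killM_bit h5
      have ho' : actP (tw o) 0 = o := Nat.eq_of_beq_eq_true hb
      have hok := allL_iff hu u hu1
      have hAv := hP.2 p0 List.mem_cons_self [tw o, u]
      apply hAv
      show P (actP (tw o) (actP u 0)) ∧ P (actP (tw o) (actP u p0))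
      unfold okU at hok
      cases hz : Nat.beq (actP u 0) 0 with
      | true =>
        have hz' : actP u 0 = 0 := Nat.eq_of_beq_eq_true hz
        have hpt : partn p0 u = actP u p0 := by
          show actP u 0 + actP u p0 = _
          rw [hz']; exact Nat.zero_add _
        rw [hpt] at hx
        rw [hz', ho', ← hx]
        exact ⟨hPo, hPp⟩
      | false =>
        rw [hz] at hok
        have hz' : actP u p0 = 0 := Nat.eq_of_beq_eq_true hok
        have hpt : partn p0 u = actP u 0 := by
          show actP u 0 + actP u p0 = _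
          rw [hz']; rfl
        rw [hpt] at hx
        rw [hz', ho', ← hx]
        exact ⟨hPp, hPo⟩

end Pool.Agent.W708.OC
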