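import Mathlib
import Pool.Agent.W708.OC.Tab
import Pool.Agent.W708.OC.ETab
/-!
Semantics of the option tables for the 6-cube: four families of symmetric chains given by the
relations `R d s t` (`s` and `t` lie on one chain of the `d`-th decomposition).
-/
set_option autoImplicit false

namespace Pool.Agent.W708.OC

abbrev F6 := Finset (Fin 6)

/-- the subset of `Fin 6` with bit mask `m` -/
def S (m : Nat) : F6 := Finset.univ.filter (fun i : Fin 6 => m.testBit i.val = true)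

structure Good (R : Fin 4 → F6 → F6 → Prop) : Prop where
  symm : ∀ d s t, R d s t → R d t s
  trans : ∀ d s t u, R d s t → R d t u → R d s u
  comp : ∀ d s t, R d s t → s ⊆ t ∨ t ⊆ s
  up : ∀ d s k, s.card ≤ k → k + s.card ≤ 6 → ∃ t : F6, t.card = k ∧ R d s t
  down : ∀ d s k, k ≤ s.card → 6 ≤ k + s.card → ∃ t : F6, t.card = k ∧ R d s t
  orth : ∀ d e s t, d ≠ e → s ≠ t → s.card ≠ 0 → s.card ≠ 6 → R d s t → R e s t → False

/-- colour of an option -/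
def col (o : Nat) : Fin 4 := ⟨o % 4, Nat.mod_lt _ (by decide)⟩

/-- the option `o` is selected by `R` -/
def PR (R : Fin 4 → F6 → F6 → Prop) (o : Nat) : Prop :=
  o < 720 ∧ R (col o) (S (dX (o / 4))) (S (dT (o / 4))) ∧ R (col o) (S (dT (o / 4))) (S (dY (o / 4)))

/-- admissible selections -/
def V (P : Nat → Prop) : Prop := ∃ R, Good R ∧ ∀ o, P o ↔ PR R o

/-- combinatorial properties of admissible selections -/
structure Adm (P : Nat → Prop) : Prop where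
  lt : ∀ o, P o → o < 720
  i0 : ∀ q0, q0 < 180 → ∀ d, d < 4 → ∃ q, q < 180 ∧ dX q = dX q0 ∧ P (4 * q + d)
  i1 : ∀ q0, q0 < 180 → ∀ d, d < 4 → ∃ q, q < 180 ∧ dY q = dY q0 ∧ P (4 * q + d)
  i2 : ∀ q0, q0 < 180 → ∃ q d, q < 180 ∧ d < 4 ∧ dX q = dX q0 ∧ dT q = dT q0 ∧ P (4 * q + d)
  i3 : ∀ q0, q0 < 180 → ∃ q d, q < 180 ∧ d < 4 ∧ dY q = dY q0 ∧ dT q = dT q0 ∧ P (4 * q + d)
  c0 : ∀ o p, P o → P p → o ≠ p → ¬ (dX (o / 4) = dX (p / 4) ∧ o % 4 = p % 4)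
  c1 : ∀ o p, P o → P p → o ≠ p → ¬ (dY (o / 4) = dY (p / 4) ∧ o % 4 = p % 4)
  c2 : ∀ o p, P o → P p → o ≠ p → ¬ (dX (o / 4) = dX (p / 4) ∧ dT (o / 4) = dT (p / 4))
  c3 : ∀ o p, P o → P p → o ≠ p → ¬ (dY (o / 4) = dY (p / 4) ∧ dT (o / 4) = dT (p / 4))
  c4 : ∀ o p, P o → P p → o ≠ p → ¬ (dT (o / 4) = dT (p / 4) ∧ o % 4 = p % 4)
  c5 : ∀ o p, P o → P p → o ≠ p → ¬ (dX (o / 4) = dX (p / 4) ∧ dY (o / 4) = dY (p / 4))

/-- the long option `l` is selected by `R` -/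
def QR (R : Fin 4 → F6 → F6 → Prop) (l : Nat) : Prop :=
  PR R (l / 4) ∧ R (col (l / 4)) (S (eA l)) (S (dX (l / 16))) ∧ R (col (l / 4)) (S (dY (l / 16))) (S (eF l))

/-- combinatorial properties of the selections of long options (`D` colour) -/
structure AdmE (Q : Nat → Prop) : Prop where
  lt : ∀ l, Q l → l < 2880
  iA : ∀ a, a < 6 → ∀ d, d < 4 → ∃ l, Q l ∧ eA l = 2 ^ a ∧ (l / 4) % 4 = d
  iF : ∀ a, a < 6 → ∀ d, d < 4 → ∃ l, Q l ∧ eF l = 63 - 2 ^ a ∧ (l / 4) % 4 = d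
  cD : ∀ l m, Q l → Q m → l ≠ m → ¬ ((l / 4) % 4 = (m / 4) % 4 ∧
    (eA l = eA m ∨ eF l = eF m ∨ dX (l / 16) = dX (m / 16)))
  cA : ∀ l m, Q l → Q m → l ≠ m → ¬ (eA l = eA m ∧
    (dX (l / 16) = dX (m / 16) ∨ dT (l / 16) = dT (m / 16) ∨ dY (l / 16) = dY (m / 16) ∨ eF l = eF m))
  cF : ∀ l m, Q l → Q m → l ≠ m → ¬ (eF l = eF m ∧
    (dX (l / 16) = dX (m / 16) ∨ dT (l / 16) = dT (m / 16) ∨ dY (l / 16) = dY (m / 16)))

end Pool.Agent.W708.OC
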