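import Pool.Agent.W708.OC.Grp
import Pool.Agent.W708.OC.Tab
/-!
Kernel friendly loops, membership trees and words in the generators.
-/
set_option autoImplicit false
set_option linter.unusedSimpArgs false

namespace Pool.Agent.W708.OC

/-- bit `i` of `m` -/
noncomputable def tb (m i : Nat) : Bool := Nat.beq (Nat.land (Nat.shiftRight m i) 1) 1

theorem tb_eq (m i : Nat) : tb m i = m.testBit i := by
  have h1 : m.testBit i = ((1 &&& (m >>> i)) != 0) := rfl
  have h2 : (m >>> i) &&& 1 = (m >>> i) % 2 := Nat.and_one_is_mod _
  have h3 : tb m i = Nat.beq ((m >>> i) &&& 1) 1 := rfl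
  rw [h3, h1, Nat.and_comm 1, h2]
  rcases Nat.mod_two_eq_zero_or_one (m >>> i) with h | h <;> rw [h] <;> rfl

/-- `f i` for all `i < n` -/
noncomputable def allB (f : Nat → Bool) (n : Nat) : Bool :=
  Nat.rec (motive := fun _ => Bool) true (fun i ih => Bool.rec (motive := fun _ => Bool) false ih (f i)) n

theorem allB_iff {f : Nat → Bool} : ∀ {n : Nat}, allB f n = true → ∀ i, i < n → f i = true := by
  intro n
  induction n with
  | zero => intro _ i hi; exact absurd hi (Nat.not_lt_zero i)
  | succ n ih =>
    intro h i hi
    have h1 : Bool.rec (motive := fun _ => Bool) false (allB f n) (f n) = true := h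
    cases hf : f n with
    | false => rw [hf] at h1; exact Bool.noConfusion h1
    | true =>
      rw [hf] at h1
      rcases Nat.lt_succ_iff_lt_or_eq.1 hi with h2 | h2
      · exact ih h1 i h2
      · rw [h2]; exact hf

/-- union of the first `n` masks -/
noncomputable def accOr (f : Nat → Nat) (n : Nat) : Nat :=
  Nat.rec (motive := fun _ => Nat) 0 (fun i ih => Nat.lor ih (f i)) n

theorem accOr_bit {f : Nat → Nat} {p : Nat} : ∀ {n i : Nat}, i < n → (f i).testBit p = true →
    (accOr f n).testBit p = true := by
  intro n
  induction n with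
  | zero => intro i hi; exact absurd hi (Nat.not_lt_zero i)
  | succ n ih =>
    intro i hi h
    show ((accOr f n) ||| (f n)).testBit p = true
    rw [Nat.testBit_or]
    rcases Nat.lt_succ_iff_lt_or_eq.1 hi with h2 | h2
    · rw [ih h2 h]; rfl
    · rw [← h2, h]; simp

theorem accOr_of_bit {f : Nat → Nat} {p : Nat} : ∀ {n : Nat}, (accOr f n).testBit p = true →
    ∃ i, i < n ∧ (f i).testBit p = true := by
  intro n
  induction n with
  | zero => intro h; have h1 : (0 : Nat).testBit p = true := h; simp at h1
  | succ n ih =>
    intro h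
    have h1 : ((accOr f n) ||| (f n)).testBit p = true := h
    rw [Nat.testBit_or] at h1
    rcases Bool.or_eq_true _ _ ▸ h1 with h2 | h2
    · obtain ⟨i, hi, h3⟩ := ih h2
      exact ⟨i, Nat.lt_succ_of_lt hi, h3⟩
    · exact ⟨n, Nat.lt_succ_self n, h2⟩

noncomputable def disjB (f : Nat → Nat) (n : Nat) : Bool :=
  allB (fun j => Nat.beq (Nat.land (accOr f j) (f j)) 0) n

theorem disjB_lt {f : Nat → Nat} {n : Nat} (h : disjB f n = true) {i j p : Nat} (hij : i < j) (hj : j < n)
    (h1 : (f i).testBit p = true) (h2 : (f j).testBit p = true) : False := by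
  have h3 := allB_iff h j hj
  have h4 : (accOr f j) &&& (f j) = 0 := Nat.eq_of_beq_eq_true h3
  have h5 : ((accOr f j) &&& (f j)).testBit p = true := by
    rw [Nat.testBit_and, accOr_bit hij h1, h2]; rfl
  rw [h4, Nat.zero_testBit] at h5
  exact absurd h5 (by decide)

theorem disjB_eq {f : Nat → Nat} {n : Nat} (h : disjB f n = true) {i j p : Nat} (hi : i < n) (hj : j < n)
    (h1 : (f i).testBit p = true) (h2 : (f j).testBit p = true) : i = j := by
  rcases Nat.lt_trichotomy i j with h3 | h3 | h3
  · exact (disjB_lt h h3 hj h1 h2).elim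
  · exact h3
  · exact (disjB_lt h h3 hi h2 h1).elim

/-! ### Membership trees -/

inductive MT where
  | lf : MT
  | nd (v : Nat) (l r : MT) : MT

noncomputable def memT (a : Nat) (t : MT) : Bool :=
  MT.rec (motive := fun _ => Bool) false
    (fun v _ _ ihl ihr => Bool.rec (motive := fun _ => Bool)
      (Bool.rec (motive := fun _ => Bool) ihr ihl (Nat.ble a v)) true (Nat.beq a v)) t

noncomputable def allT (f : Nat → Bool) (t : MT) : Bool :=
  MT.rec (motive := fun _ => Bool) true
    (fun v _ _ ihl ihr => Bool.rec (motive := fun _ => Bool) false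
      (Bool.rec (motive := fun _ => Bool) false ihr ihl) (f v)) t

theorem allT_mem {f : Nat → Bool} {a : Nat} : ∀ {t : MT}, allT f t = true → memT a t = true → f a = true := by
  intro t
  induction t with
  | lf => intro _ h; exact absurd h (by intro h; cases h)
  | nd v l r ihl ihr =>
    intro h hm
    have h1 : Bool.rec (motive := fun _ => Bool) false
      (Bool.rec (motive := fun _ => Bool) false (allT f r) (allT f l)) (f v) = true := h
    have h2 : Bool.rec (motive := fun _ => Bool)
      (Bool.rec (motive := fun _ => Bool) (memT a r) (memT a l) (Nat.ble a v)) true (Nat.beq a v) = true := hm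
    cases hf : f v with
    | false => rw [hf] at h1; exact Bool.noConfusion h1
    | true =>
      rw [hf] at h1
      cases hl : allT f l with
      | false => rw [hl] at h1; exact Bool.noConfusion h1
      | true =>
        rw [hl] at h1
        cases hb : Nat.beq a v with
        | true => rw [Nat.eq_of_beq_eq_true hb]; exact hf
        | false =>
          rw [hb] at h2
          cases hc : Nat.ble a v with
          | true => rw [hc] at h2; exact ihl hl h2
          | false => rw [hc] at h2; exact ihr h1 h2

/-! ### Words in the generators -/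

/-- digit `i` (5 bits) of a packed word -/
noncomputable def dg (w i : Nat) : Nat := Nat.land (Nat.shiftRight w i) 31

noncomputable def A2 (d o : Nat) : Nat :=
  Bool.rec (motive := fun _ => Nat) (A1 d o) o (Nat.beq d 0)

/-- action of a packed word of at most 9 generators -/
noncomputable def actP (w o : Nat) : Nat :=
  A2 (dg w 40) (A2 (dg w 35) (A2 (dg w 30) (A2 (dg w 25) (A2 (dg w 20) (A2 (dg w 15) (A2 (dg w 10) (A2 (dg w 5)
    (A2 (dg w 0) o))))))))

theorem dg_lt (w i : Nat) : dg w i < 32 := by
  show (w >>> i) &&& 31 < 32
  exact Nat.lt_of_le_of_lt (Nat.and_le_right) (by decide)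

end Pool.Agent.W708.OC
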